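import Mathlib
import Pool.Graph.R_seed8.Helper579.Greedy

/-!
Localisation of a Gaussian vector with adaptive information, for the cube of constant size
(the arguments of `Pool.Agent.Helper579.GaussCore` and `CoreEst` with other constants).
-/

set_option autoImplicit false
set_option linter.unusedSectionVars false

namespace Pool.Agent.H46.RG

open MeasureTheory Set Metric Module
open Pool.Agent.Helper579.Recovery Pool.Agent.Helper579.GaussCore
open scoped ENNReal RealInnerProductSpace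

section Basic

variable {V : Type} [NormedAddCommGroup V] [InnerProductSpace ℝ V] [FiniteDimensional ℝ V]
  [MeasurableSpace V] [BorelSpace V]

lemma lintegral_narrow15 (c : V) :
    ∫⁻ v : V, ENNReal.ofReal (Real.exp (-(225 / 2) * ‖v - c‖ ^ 2))
      = (1 / 15 : ℝ≥0∞) ^ (finrank ℝ V) * tot V := by
  rw [lintegral_gauss (by norm_num) c, tot_eq]
  have h1 : (1 / 15 : ℝ≥0∞) ^ (finrank ℝ V) = ENNReal.ofReal ((1 / 15) ^ (finrank ℝ V)) := by
    rw [ENNReal.ofReal_pow (by norm_num)]
    congr 1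
    rw [ENNReal.ofReal_div_of_pos (by norm_num)]
    simp
  rw [h1, ← ENNReal.ofReal_mul (by positivity)]
  congr 1
  have h2 : ((1 / 15 : ℝ)) ^ (finrank ℝ V) = (1 / 225) ^ ((finrank ℝ V : ℝ) / 2) := by
    have : (1 / 225 : ℝ) = (1 / 15) ^ (2 : ℝ) := by norm_num
    rw [this, ← Real.rpow_mul (by norm_num), ← Real.rpow_natCast]
    congr 1; ring
  rw [h2, ← Real.mul_rpow (by norm_num) (by positivity)]
  congr 1
  ring

/-- base case: small balls -/
lemma ball_bound15 (M : Set V) (hM : MeasurableSet M) (c : V) (r : ℝ)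
    (h : ∀ v ∈ M, ‖v - c‖ ≤ r) :
    ∫⁻ v in M, gw v ≤ ENNReal.ofReal (Real.exp (112 * r ^ 2)) *
      (1 / 15 : ℝ≥0∞) ^ (finrank ℝ V) * tot V := by
  set c' : V := (224 / 225 : ℝ) • c with hc'
  have hpt : ∀ v ∈ M, gw v ≤ ENNReal.ofReal (Real.exp (112 * r ^ 2)) *
      ENNReal.ofReal (Real.exp (-(225 / 2) * ‖v - c'‖ ^ 2)) := by
    intro v hv
    unfold gw
    rw [← ENNReal.ofReal_mul (by positivity), ← Real.exp_add]
    apply ENNReal.ofReal_le_ofReal
    apply Real.exp_le_exp.mpr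
    have h1 : ‖v - c‖ ^ 2 ≤ r ^ 2 := by
      have := h v hv
      gcongr
    have h2 : ‖v - c‖ ^ 2 = ‖v‖ ^ 2 - 2 * ⟪v, c⟫ + ‖c‖ ^ 2 := norm_sub_sq_real v c
    have h3 : ‖v - c'‖ ^ 2 = ‖v‖ ^ 2 - 2 * ((224 / 225) * ⟪v, c⟫) + (224 / 225) ^ 2 * ‖c‖ ^ 2 := by
      rw [norm_sub_sq_real, hc', inner_smul_right, norm_smul, mul_pow]
      norm_num
    have h4 : 0 ≤ ‖c‖ ^ 2 := by positivity
    nlinarith
  calc ∫⁻ v in M, gw v ≤ ∫⁻ v in M, ENNReal.ofReal (Real.exp (112 * r ^ 2)) *
      ENNReal.ofReal (Real.exp (-(225 / 2) * ‖v - c'‖ ^ 2)) := setLIntegral_mono' hM hpt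
    _ ≤ ∫⁻ v, ENNReal.ofReal (Real.exp (112 * r ^ 2)) *
      ENNReal.ofReal (Real.exp (-(225 / 2) * ‖v - c'‖ ^ 2)) := setLIntegral_le_lintegral _ _
    _ = ENNReal.ofReal (Real.exp (112 * r ^ 2)) *
      ((1 / 15 : ℝ≥0∞) ^ (finrank ℝ V) * tot V) := by
        rw [lintegral_const_mul' _ _ ENNReal.ofReal_ne_top, lintegral_narrow15]
    _ = _ := by rw [mul_assoc]

end Basic

/-- Adaptive information does not help to localise a Gaussian vector. -/
theorem small_measure15 : ∀ (k : ℕ) (V : Type) [NormedAddCommGroup V] [InnerProductSpace ℝ V]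
    [FiniteDimensional ℝ V] [MeasurableSpace V] [BorelSpace V] (M : Set V) (_ : MeasurableSet M)
    (G : V → V) (_ : IsAlg (aff V) k G) (r : ℝ) (_ : ∀ v ∈ M, ‖v - G v‖ ≤ r),
    ∫⁻ v in M, gw v ≤ ENNReal.ofReal (Real.exp (112 * r ^ 2)) *
      (1 / 15 : ℝ≥0∞) ^ (finrank ℝ V - k) * tot V
  | 0, V, _, _, _, _, _, M, hM, G, hG, r, h => by
    obtain ⟨c, hc⟩ := hG
    rw [Nat.sub_zero]
    apply ball_bound15 M hM c r
    intro v hv
    rw [← hc v]
    exact h v hv
  | k + 1, V, _, _, _, _, _, M, hM, G, hG, r, h => by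
    obtain ⟨L, ⟨c, a, hL⟩, A', hA', hGA⟩ := hG
    have hhalf : (1 / 15 : ℝ≥0∞) ≤ 1 := by
      rw [one_div]; exact ENNReal.inv_le_one.mpr (by norm_num)
    by_cases ha : a = 0
    · -- constant functional
      have hG' : IsAlg (aff V) k G := by
        have : G = A' c := by
          funext v
          rw [hGA v, hL v, ha, inner_zero_left, add_zero]
        rw [this]
        exact hA' c
      refine (small_measure15 k V M hM G hG' r h).trans ?_
      have hp : (1 / 15 : ℝ≥0∞) ^ (finrank ℝ V - k) ≤ (1 / 15 : ℝ≥0∞) ^ (finrank ℝ V - (k + 1)) :=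
        pow_le_pow_right_of_le_one' hhalf (by omega)
      exact mul_le_mul' (mul_le_mul' le_rfl hp) le_rfl
    · set K : Submodule ℝ V := Submodule.span ℝ {a} with hK
      have hdim : finrank ℝ Kᗮ + 1 = finrank ℝ V := by
        have h1 := K.finrank_add_finrank_orthogonal
        have h2 : finrank ℝ K = 1 := finrank_span_singleton ha
        omega
      -- slices
      have hslice : ∀ s : K, ∫⁻ w : Kᗮ, M.indicator gw ((s : V) + (w : V)) ≤
          gw s * (ENNReal.ofReal (Real.exp (112 * r ^ 2)) *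
            (1 / 15 : ℝ≥0∞) ^ (finrank ℝ Kᗮ - k) * tot Kᗮ) := by
        intro s
        set Ms : Set Kᗮ := {w | (s : V) + (w : V) ∈ M} with hMs
        have hMsm : MeasurableSet Ms := by
          have : Measurable (fun w : Kᗮ => (s : V) + (w : V)) := by fun_prop
          exact this hM
        have h1 : ∫⁻ w : Kᗮ, M.indicator gw ((s : V) + (w : V))
            = gw s * ∫⁻ w in Ms, gw w := by
          rw [← lintegral_indicator hMsm, ← lintegral_const_mul _
            (measurable_gw.indicator hMsm)]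
          apply lintegral_congr
          intro w
          by_cases hw : (s : V) + (w : V) ∈ M
          · rw [indicator_of_mem hw, indicator_of_mem (show w ∈ Ms from hw), gw_add]
          · rw [indicator_of_notMem hw, indicator_of_notMem (show w ∉ Ms from hw), mul_zero]
        rw [h1]
        apply mul_le_mul_right
        -- algorithm on the slice
        let Gs : Kᗮ → Kᗮ := fun w =>
          Kᗮ.orthogonalProjectionOnto (A' (c + ⟪a, (s : V)⟫) ((s : V) + (w : V)))
        have hGs : IsAlg (aff Kᗮ) k Gs := by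
          have h2 : IsAlg (aff V) k (fun v => Kᗮ.orthogonalProjectionOnto (A' (c + ⟪a, (s : V)⟫) v)) :=
            (hA' _).post (fun y => Kᗮ.orthogonalProjectionOnto y)
          refine IsAlg.comap (ι := fun w : Kᗮ => (s : V) + (w : V)) ?_ h2
          rintro L' ⟨c', a', hL'⟩
          refine ⟨c' + ⟪a', (s : V)⟫, Kᗮ.orthogonalProjectionOnto a', ?_⟩
          intro w
          show L' ((s : V) + (w : V)) = _
          rw [hL', inner_add_right]
          have h3 : ⟪a', (w : V)⟫ = ⟪Kᗮ.orthogonalProjectionOnto a', w⟫ := by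
            rw [Submodule.coe_inner]
            have h4 := Submodule.inner_orthogonalProjectionOnto_eq_of_mem_right w a'
            rw [← h4]
            rfl
          rw [h3]; ring
        apply small_measure15 k Kᗮ Ms hMsm Gs hGs r
        intro w hw
        have h2 := h _ hw
        have h3 : G ((s : V) + (w : V)) = A' (c + ⟪a, (s : V)⟫) ((s : V) + (w : V)) := by
          rw [hGA, hL]
          congr 1
          rw [inner_add_right]
          have : ⟪a, (w : V)⟫ = 0 :=
            K.inner_right_of_mem_orthogonal (Submodule.mem_span_singleton_self a) w.2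
          rw [this, add_zero]
        rw [h3] at h2
        have h4 : w - Gs w = Kᗮ.orthogonalProjectionOnto
            ((s : V) + (w : V) - A' (c + ⟪a, (s : V)⟫) ((s : V) + (w : V))) := by
          rw [map_sub, map_add]
          have h5 : Kᗮ.orthogonalProjectionOnto (s : V) = 0 := by
            rw [Submodule.orthogonalProjectionOnto_eq_zero_iff, Submodule.orthogonal_orthogonal]
            exact s.2
          have h6 : Kᗮ.orthogonalProjectionOnto (w : V) = w :=
            Submodule.orthogonalProjectionOnto_mem_subspace_eq_self w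
          rw [h5, h6, zero_add]
        rw [h4]
        refine le_trans ?_ h2
        exact Kᗮ.norm_orthogonalProjectionOnto_apply_le _
      calc ∫⁻ v in M, gw v = ∫⁻ v, M.indicator gw v := (lintegral_indicator hM _).symm
        _ = ∫⁻ s : K, ∫⁻ w : Kᗮ, M.indicator gw ((s : V) + (w : V)) :=
            lintegral_split K _ (measurable_gw.indicator hM)
        _ ≤ ∫⁻ s : K, gw s * (ENNReal.ofReal (Real.exp (112 * r ^ 2)) *
            (1 / 15 : ℝ≥0∞) ^ (finrank ℝ Kᗮ - k) * tot Kᗮ) := lintegral_mono hslice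
        _ = tot K * (ENNReal.ofReal (Real.exp (112 * r ^ 2)) *
            (1 / 15 : ℝ≥0∞) ^ (finrank ℝ Kᗮ - k) * tot Kᗮ) := by
            rw [lintegral_mul_const _ measurable_gw]; rfl
        _ = ENNReal.ofReal (Real.exp (112 * r ^ 2)) *
            (1 / 15 : ℝ≥0∞) ^ (finrank ℝ V - (k + 1)) * tot V := by
            rw [tot_split K]
            have : finrank ℝ Kᗮ - k = finrank ℝ V - (k + 1) := by omega
            rw [this]; ring


section Fixed

variable {V : Type} [NormedAddCommGroup V] [InnerProductSpace ℝ V] [FiniteDimensional ℝ V]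
  [MeasurableSpace V] [BorelSpace V]
variable {Y : Type*} [NormedAddCommGroup Y]
variable {W : Type*} [NormedAddCommGroup W] [NormedSpace ℝ W]

/-- average error of a deterministic algorithm over the Gaussian restricted to a set which is
large compared with the sets that can be localised -/
theorem core_fixed15 {Good : Set V} (hGood : MeasurableSet Good) {k : ℕ} {r : ℝ} (hr : 0 ≤ r)
    (hsmall : 2 * (ENNReal.ofReal (Real.exp (112 * r ^ 2)) *
      (1 / 15 : ℝ≥0∞) ^ (finrank ℝ V - k) * tot V) ≤ ∫⁻ v in Good, gw v)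
    {Ψ : Y → W} {κ : ℝ} (hκ : 0 < κ) (hΨ : ∀ a b, ‖Ψ a - Ψ b‖ ≤ κ * ‖a - b‖)
    {s : V → Y} {T : V →ₗ[ℝ] W} {b : W} {τ : ℝ} (hτ : 0 < τ)
    (hs : ∀ v ∈ Good, Ψ (s v) = b + τ • T v)
    {σ : ℝ} (hσ0 : 0 ≤ σ) (hσ : ∀ v, σ * ‖v‖ ≤ ‖T v‖)
    {A : V → Y} (hA : IsAlg (aff V) k A)
    {err : V → ℝ} (hmeas : Measurable err) (herr : ∀ v ∈ Good, err v = ‖s v - A v‖) :
    ENNReal.ofReal (r * τ * σ / (4 * κ)) * (∫⁻ v in Good, gw v) ≤
      ∫⁻ v in Good, ENNReal.ofReal (err v) * gw v := by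
  classical
  rcases eq_or_lt_of_le hσ0 with hσz | hσpos
  · rw [← hσz]; simp
  set δ : ℝ := r * τ * σ / (2 * κ) with hδ
  have hδ0 : 0 ≤ δ := by positivity
  set M : Set V := Good ∩ {v | err v ≤ δ} with hM
  have hMm : MeasurableSet M := hGood.inter (measurableSet_le hmeas measurable_const)
  -- two points of M with the same output are close
  have hclose : ∀ v ∈ M, ∀ v' ∈ M, A v = A v' → ‖v - v'‖ ≤ r := by
    intro v hv v' hv' hAA
    have h1 : ‖Ψ (s v) - Ψ (A v)‖ ≤ κ * δ := by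
      refine (hΨ _ _).trans (mul_le_mul_of_nonneg_left ?_ hκ.le)
      rw [← herr v hv.1]; exact hv.2
    have h2 : ‖Ψ (s v') - Ψ (A v')‖ ≤ κ * δ := by
      refine (hΨ _ _).trans (mul_le_mul_of_nonneg_left ?_ hκ.le)
      rw [← herr v' hv'.1]; exact hv'.2
    have h3 : τ • T (v - v') = (Ψ (s v) - Ψ (A v)) - (Ψ (s v') - Ψ (A v')) := by
      rw [hs v hv.1, hs v' hv'.1, hAA, map_sub, smul_sub]; abel
    have h4 : τ * ‖T (v - v')‖ ≤ 2 * (κ * δ) := by
      have : τ * ‖T (v - v')‖ = ‖τ • T (v - v')‖ := by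
        rw [norm_smul, Real.norm_eq_abs, abs_of_pos hτ]
      rw [this, h3]
      refine (norm_sub_le _ _).trans ?_
      linarith
    have h5 : τ * σ * ‖v - v'‖ ≤ τ * σ * r := by
      have h6 := mul_le_mul_of_nonneg_left (hσ (v - v')) hτ.le
      have h7 : 2 * (κ * δ) = τ * σ * r := by
        rw [hδ]; field_simp
      nlinarith
    exact le_of_mul_le_mul_left h5 (by positivity)
  -- localisation algorithm
  let ch : Y → V := fun y => if h : ∃ v ∈ M, A v = y then h.choose else 0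
  have hch : IsAlg (aff V) k (fun v => ch (A v)) := hA.post ch
  have hloc : ∀ v ∈ M, ‖v - ch (A v)‖ ≤ r := by
    intro v hv
    have hex : ∃ v' ∈ M, A v' = A v := ⟨v, hv, rfl⟩
    have h1 : ch (A v) = hex.choose := dif_pos hex
    rw [h1]
    exact hclose v hv _ hex.choose_spec.1 hex.choose_spec.2.symm
  set gm : ℝ≥0∞ := ∫⁻ v in Good, gw v with hgm
  have hgmtop : gm ≠ ∞ := ne_top_of_le_ne_top (tot_ne_top (V := V)) (setLIntegral_le_lintegral _ _)
  have hMbound : 2 * ∫⁻ v in M, gw v ≤ gm := by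
    refine le_trans (mul_le_mul' le_rfl (small_measure15 k V M hMm _ hch r hloc)) hsmall
  -- the rest has large mass
  have hrest : gm ≤ 2 * ∫⁻ v in Good \ M, gw v := by
    have h1 : gm ≤ (∫⁻ v in M, gw v) + (∫⁻ v in Good \ M, gw v) := by
      have hcover : Good ⊆ M ∪ (Good \ M) := by
        intro v hv
        by_cases hm : v ∈ M
        · exact Or.inl hm
        · exact Or.inr ⟨hv, hm⟩
      exact (lintegral_mono_set hcover).trans (lintegral_union_le _ _ _)
    have h2 : gm + gm ≤ gm + 2 * ∫⁻ v in Good \ M, gw v := by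
      calc gm + gm = 2 * gm := (two_mul _).symm
        _ ≤ 2 * ((∫⁻ v in M, gw v) + (∫⁻ v in Good \ M, gw v)) := by gcongr
        _ = 2 * (∫⁻ v in M, gw v) + 2 * (∫⁻ v in Good \ M, gw v) := mul_add _ _ _
        _ ≤ _ := by gcongr
    exact (ENNReal.add_le_add_iff_left hgmtop).mp h2
  calc ENNReal.ofReal (r * τ * σ / (4 * κ)) * gm
      ≤ ENNReal.ofReal (r * τ * σ / (4 * κ)) * (2 * ∫⁻ v in Good \ M, gw v) := by gcongr
    _ = ENNReal.ofReal δ * ∫⁻ v in Good \ M, gw v := by
        rw [← mul_assoc]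
        congr 1
        have : (2 : ℝ≥0∞) = ENNReal.ofReal 2 := by simp
        rw [this, ← ENNReal.ofReal_mul (by positivity)]
        congr 1
        rw [hδ]; field_simp; norm_num
    _ = ∫⁻ v in Good \ M, ENNReal.ofReal δ * gw v := by
        rw [lintegral_const_mul _ measurable_gw]
    _ ≤ ∫⁻ v in Good \ M, ENNReal.ofReal (err v) * gw v := by
        apply setLIntegral_mono' (hGood.diff hMm)
        intro v hv
        have : δ ≤ err v := by
          by_contra hcon
          push Not at hcon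
          exact hv.2 ⟨hv.1, hcon.le⟩
        gcongr
    _ ≤ ∫⁻ v in Good, ENNReal.ofReal (err v) * gw v := lintegral_mono_set sdiff_subset

/-- randomised version -/
theorem core_rand15 {Good : Set V} (hGood : MeasurableSet Good) (hpos : ∫⁻ v in Good, gw v ≠ 0)
    {k : ℕ} {r : ℝ} (hr : 0 ≤ r)
    (hsmall : 2 * (ENNReal.ofReal (Real.exp (112 * r ^ 2)) *
      (1 / 15 : ℝ≥0∞) ^ (finrank ℝ V - k) * tot V) ≤ ∫⁻ v in Good, gw v)
    {Ψ : Y → W} {κ : ℝ} (hκ : 0 < κ) (hΨ : ∀ a b, ‖Ψ a - Ψ b‖ ≤ κ * ‖a - b‖)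
    {s : V → Y} {T : V →ₗ[ℝ] W} {b : W} {τ : ℝ} (hτ : 0 < τ)
    (hs : ∀ v ∈ Good, Ψ (s v) = b + τ • T v)
    {σ : ℝ} (hσ0 : 0 ≤ σ) (hσ : ∀ v, σ * ‖v‖ ≤ ‖T v‖)
    {Ω : Type*} [MeasurableSpace Ω] {μ : Measure Ω} [IsProbabilityMeasure μ]
    {A : Ω → V → Y} (hA : ∀ ω, IsAlg (aff V) k (A ω))
    {err : V → Ω → ℝ} (hmeas : Measurable (fun p : V × Ω => err p.1 p.2))
    (herr : ∀ ω, ∀ v ∈ Good, err v ω = ‖s v - A ω v‖)
    {e : ℝ≥0∞} (he : ∀ v, ∫⁻ ω, ENNReal.ofReal (err v ω) ∂μ ≤ e) :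
    ENNReal.ofReal (r * τ * σ / (4 * κ)) ≤ e := by
  set c := ENNReal.ofReal (r * τ * σ / (4 * κ)) with hc
  set gm : ℝ≥0∞ := ∫⁻ v in Good, gw v with hgm
  have hgmtop : gm ≠ ∞ := ne_top_of_le_ne_top (tot_ne_top (V := V)) (setLIntegral_le_lintegral _ _)
  have h1 : ∀ ω, c * gm ≤ ∫⁻ v in Good, ENNReal.ofReal (err v ω) * gw v := fun ω =>
    core_fixed15 hGood hr hsmall hκ hΨ hτ hs hσ0 hσ (hA ω)
      (hmeas.comp (measurable_id.prodMk measurable_const)) (herr ω)
  have h2 : c * gm ≤ ∫⁻ ω, (∫⁻ v in Good, ENNReal.ofReal (err v ω) * gw v) ∂μ := by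
    calc c * gm = ∫⁻ _ω, c * gm ∂μ := by rw [lintegral_const, measure_univ, mul_one]
      _ ≤ _ := lintegral_mono h1
  have h3 : ∫⁻ ω, (∫⁻ v in Good, ENNReal.ofReal (err v ω) * gw v) ∂μ
      = ∫⁻ v in Good, (∫⁻ ω, ENNReal.ofReal (err v ω) * gw v ∂μ) := by
    apply lintegral_lintegral_swap
    apply Measurable.aemeasurable
    have h4 : Measurable (fun p : Ω × V => err p.2 p.1) := hmeas.comp measurable_swap
    exact (h4.ennreal_ofReal).mul (measurable_gw.comp measurable_snd)
  rw [h3] at h2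
  have h5 : ∫⁻ v in Good, (∫⁻ ω, ENNReal.ofReal (err v ω) * gw v ∂μ) ≤ e * gm := by
    calc ∫⁻ v in Good, (∫⁻ ω, ENNReal.ofReal (err v ω) * gw v ∂μ)
        ≤ ∫⁻ v in Good, e * gw v := by
          apply lintegral_mono
          intro v
          show ∫⁻ ω, ENNReal.ofReal (err v ω) * gw v ∂μ ≤ e * gw v
          rw [lintegral_mul_const']
          · exact mul_le_mul' (he v) le_rfl
          · unfold gw; exact ENNReal.ofReal_ne_top
      _ = e * gm := lintegral_const_mul _ measurable_gw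
  exact (ENNReal.mul_le_mul_iff_left hpos hgmtop).mp (h2.trans h5)

end Fixed

end Pool.Agent.H46.RG
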