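import Mathlib
import Pool.Agent.H46.RG.Core

/-!
The lower bound for randomized algorithms by the cube of constant size, and the inequality between
deterministic non-adaptive and randomized adaptive algorithms for Hilbert spaces as targets.
-/

set_option autoImplicit false
set_option linter.unusedSectionVars false

namespace Pool.Agent.H46.RG

open MeasureTheory Set Metric Module
open Pool.Agent.Helper579.Recovery Pool.Agent.Helper579.GaussCore
open Pool.Agent.Helper579.RanLower Pool.Agent.Helper579.Greedy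
open Pool.Agent.Helper579
open scoped ENNReal RealInnerProductSpace Pointwise

/-- The cube. -/
def cube (N : ℕ) : Set (EuclideanSpace ℝ (Fin N)) := {v | ∀ j, |v j| ≤ 1}

lemma cube_eq (N : ℕ) : cube N = (WithLp.ofLp : EuclideanSpace ℝ (Fin N) → (Fin N → ℝ)) ⁻¹'
    (Set.Icc (fun _ => -1) (fun _ => 1)) := by
  ext v
  simp only [cube, Set.mem_preimage, Set.mem_Icc, Pi.le_def]
  constructor
  · intro h
    exact ⟨fun i => (abs_le.mp (h i)).1, fun i => (abs_le.mp (h i)).2⟩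
  · intro h i
    exact abs_le.mpr ⟨h.1 i, h.2 i⟩

lemma measurableSet_cube (N : ℕ) : MeasurableSet (cube N) := by
  rw [cube_eq]
  exact (PiLp.volume_preserving_ofLp (Fin N)).measurable measurableSet_Icc

lemma volume_cube (N : ℕ) : volume (cube N) = ENNReal.ofReal (2 ^ N) := by
  rw [cube_eq, (PiLp.volume_preserving_ofLp (Fin N)).measure_preimage
    measurableSet_Icc.nullMeasurableSet, Real.volume_Icc_pi]
  rw [Finset.prod_const, Finset.card_univ, Fintype.card_fin, ← ENNReal.ofReal_pow (by norm_num)]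
  norm_num

lemma norm_sq_le_of_mem_cube {N : ℕ} {v : EuclideanSpace ℝ (Fin N)} (hv : v ∈ cube N) :
    ‖v‖ ^ 2 ≤ N := by
  rw [EuclideanSpace.norm_eq, Real.sq_sqrt (Finset.sum_nonneg fun i _ => by positivity)]
  calc ∑ i, ‖v i‖ ^ 2 ≤ ∑ _i : Fin N, (1 : ℝ) := by
        apply Finset.sum_le_sum
        intro i _
        rw [Real.norm_eq_abs]
        exact pow_le_one₀ (abs_nonneg _) (hv i)
    _ = N := by simp

lemma cube_mass (N : ℕ) :
    ENNReal.ofReal (Real.exp (-((N : ℝ) / 2)) * 2 ^ N) ≤ ∫⁻ v in cube N, gw v := by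
  calc ENNReal.ofReal (Real.exp (-((N : ℝ) / 2)) * 2 ^ N)
      = ∫⁻ _v in cube N, ENNReal.ofReal (Real.exp (-((N : ℝ) / 2))) := by
        rw [setLIntegral_const, volume_cube, ← ENNReal.ofReal_mul (by positivity)]
    _ ≤ ∫⁻ v in cube N, gw v := by
        apply setLIntegral_mono' (measurableSet_cube N)
        intro v hv
        unfold gw
        apply ENNReal.ofReal_le_ofReal
        apply Real.exp_le_exp.mpr
        have := norm_sq_le_of_mem_cube hv
        linarith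

lemma exp_half_le : Real.exp (1 / 2) ≤ 165 / 100 := by
  have h1 : Real.exp (1 / 2) ^ 2 = Real.exp 1 := by
    rw [← Real.exp_nat_mul]; norm_num
  have h2 := Real.exp_one_lt_d9
  have h3 : 0 < Real.exp (1 / 2 : ℝ) := Real.exp_pos _
  by_contra hcon
  push Not at hcon
  nlinarith

lemma num15 {N m : ℕ} (hm : 1 ≤ m) (h : N ≤ 2 * m) :
    2 * (Real.exp (112 * (Real.sqrt m / 15) ^ 2) * (1 / 15) ^ m * (2 * Real.pi) ^ ((N : ℝ) / 2)) ≤
      Real.exp (-((N : ℝ) / 2)) * 2 ^ N := by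
  set B : ℝ := Real.pi * Real.exp 1 / 2 with hB
  have hpi : Real.pi < 3.15 := Real.pi_lt_d2
  have hpi3 : 3 < Real.pi := Real.pi_gt_three
  have he : Real.exp 1 < 2.7182818286 := Real.exp_one_lt_d9
  have he2 : 2.7182818283 < Real.exp 1 := Real.exp_one_gt_d9
  have hB1 : 1 ≤ B := by rw [hB]; nlinarith
  have hB2 : B ≤ 4.2816 := by rw [hB]; nlinarith
  have h1 : (2 * Real.pi) ^ ((N : ℝ) / 2) = B ^ ((N : ℝ) / 2) * (Real.exp (-((N : ℝ) / 2)) * 2 ^ N) := by
    have e1 : 2 * Real.pi = B * (Real.exp (-1) * 4) := by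
      rw [hB]
      have : Real.exp 1 * Real.exp (-1) = 1 := by rw [← Real.exp_add]; norm_num
      linear_combination (-2 * Real.pi) * this
    rw [e1, Real.mul_rpow (by positivity) (by positivity),
      Real.mul_rpow (by positivity) (by positivity)]
    congr 2
    · rw [← Real.exp_mul]; congr 1; ring
    · have : (4 : ℝ) = 2 ^ (2 : ℝ) := by norm_num
      rw [this, ← Real.rpow_mul (by norm_num), ← Real.rpow_natCast]
      congr 1; ring
  have h2 : B ^ ((N : ℝ) / 2) ≤ B ^ m := by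
    rw [← Real.rpow_natCast B m]
    apply Real.rpow_le_rpow_of_exponent_le hB1
    have : (N : ℝ) ≤ 2 * m := by exact_mod_cast h
    linarith
  have h3 : Real.exp (112 * (Real.sqrt m / 15) ^ 2) ≤ (165 / 100) ^ m := by
    rw [div_pow, Real.sq_sqrt (by positivity)]
    calc Real.exp (112 * ((m : ℝ) / 15 ^ 2)) ≤ Real.exp (m * (1 / 2)) := by
          apply Real.exp_le_exp.mpr
          have : (0 : ℝ) ≤ m := by positivity
          nlinarith
      _ = Real.exp (1 / 2) ^ m := by rw [Real.exp_nat_mul]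
      _ ≤ _ := pow_le_pow_left₀ (Real.exp_pos _).le exp_half_le m
  have h4 : 2 * ((165 / 100 : ℝ) ^ m * (1 / 15) ^ m * B ^ m) ≤ 1 := by
    rw [← mul_pow, ← mul_pow]
    have h5 : (165 / 100 : ℝ) * (1 / 15) * B ≤ 1 / 2 := by nlinarith
    have h6 : ((165 / 100 : ℝ) * (1 / 15) * B) ^ m ≤ (1 / 2) ^ m :=
      pow_le_pow_left₀ (by positivity) h5 m
    have h7 : (1 / 2 : ℝ) ^ m ≤ (1 / 2) ^ 1 := pow_le_pow_of_le_one (by norm_num) (by norm_num) hm
    linarith
  rw [h1]
  set Q : ℝ := Real.exp (-((N : ℝ) / 2)) * 2 ^ N with hQ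
  have hQ0 : 0 < Q := by positivity
  calc 2 * (Real.exp (112 * (Real.sqrt m / 15) ^ 2) * (1 / 15) ^ m * (B ^ ((N : ℝ) / 2) * Q))
      ≤ 2 * ((165 / 100) ^ m * (1 / 15) ^ m * (B ^ m * Q)) := by gcongr
    _ = (2 * ((165 / 100 : ℝ) ^ m * (1 / 15) ^ m * B ^ m)) * Q := by ring
    _ ≤ 1 * Q := by gcongr
    _ = Q := one_mul _

lemma small15 {N k : ℕ} (hN : 0 < N) (hk : 2 * k ≤ N) :
    2 * (ENNReal.ofReal (Real.exp (112 * (Real.sqrt ((N - k : ℕ) : ℝ) / 15) ^ 2)) *
      (1 / 15 : ℝ≥0∞) ^ (finrank ℝ (EuclideanSpace ℝ (Fin N)) - k) * tot (EuclideanSpace ℝ (Fin N)))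
      ≤ ∫⁻ v in cube N, gw v := by
  refine le_trans ?_ (cube_mass N)
  rw [tot_eq, finrank_euclideanSpace_fin]
  have h1 : (1 / 15 : ℝ≥0∞) ^ (N - k) = ENNReal.ofReal ((1 / 15) ^ (N - k)) := by
    rw [ENNReal.ofReal_pow (by norm_num)]
    congr 1
    rw [ENNReal.ofReal_div_of_pos (by norm_num)]
    simp
  have h2 : (2 : ℝ≥0∞) = ENNReal.ofReal 2 := by simp
  rw [h1, h2, ← ENNReal.ofReal_mul (by positivity), ← ENNReal.ofReal_mul (by positivity),
    ← ENNReal.ofReal_mul (by positivity)]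
  apply ENNReal.ofReal_le_ofReal
  exact num15 (by omega) (by omega)

section Main

variable {𝕜 : Type} [RCLike 𝕜] {X Y : Type} [NormedAddCommGroup X] [NormedSpace 𝕜 X]
  [NormedSpace ℝ X] [IsScalarTower ℝ 𝕜 X] [NormedAddCommGroup Y] [NormedSpace 𝕜 Y]
  [NormedSpace ℝ Y] [IsScalarTower ℝ 𝕜 Y]
variable {W : Type} [NormedAddCommGroup W] [NormedSpace ℝ W]

theorem ran_lower15 {d : ℕ} (hd : Enc 𝕜 d) (S : X →L[𝕜] Y) {F : Set X} (hF : Convex ℝ F)
    {N : ℕ} (hN : 0 < N) {f g : Fin N → X} (hf : ∀ j, f j ∈ F) (hg : ∀ j, g j ∈ F)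
    (Ψ : Y →ₗ[ℝ] W) {κ : ℝ} (hκ : 0 < κ) (hΨ : ∀ y, ‖Ψ y‖ ≤ κ * ‖y‖)
    {σ : ℝ} (hσ0 : 0 ≤ σ)
    (hσ : ∀ v : EuclideanSpace ℝ (Fin N), σ * ‖v‖ ≤ ‖∑ j, v j • Ψ (S (f j - g j))‖)
    {k : ℕ} (hk : 2 * (k * d) ≤ N)
    {e : ℝ≥0∞} (he : e ∈ IBC.ranErrors 𝕜 S F k) :
    ENNReal.ofReal (Real.sqrt ((N - k * d : ℕ) : ℝ) * σ / (120 * N * κ)) ≤ e := by
  classical
  have hNr : (1 : ℝ) ≤ N := by exact_mod_cast hN
  obtain ⟨Ω, mΩ, μ, hμ, A, hA, hmeas, he⟩ := he
  let S' : X →ₗ[ℝ] Y := S.toLinearMap.restrictScalars ℝ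
  let tt : EuclideanSpace ℝ (Fin N) → Fin N → ℝ := fun v j => clip (v j)
  have htt : ∀ v j, |tt v j| ≤ 1 := fun v j => abs_clip_le _
  let h : EuclideanSpace ℝ (Fin N) → F := fun v => ⟨pt f g (tt v), pt_mem f g hF hN hf hg (htt v)⟩
  let l : EuclideanSpace ℝ (Fin N) →ₗ[ℝ] X := (2 * (N : ℝ))⁻¹ • ∑ j : Fin N,
    ((EuclideanSpace.proj (𝕜 := ℝ) j).toLinearMap).smulRight (f j - g j)
  have hl : ∀ v : EuclideanSpace ℝ (Fin N), l v = (2 * (N : ℝ))⁻¹ • ∑ j, v j • (f j - g j) := by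
    intro v
    simp [l]
  have hh : ∀ v ∈ cube N, (h v : X) = pt f g 0 + l v := by
    intro v hv
    show pt f g (tt v) = _
    rw [pt_eq, hl]
    congr 2
    apply Finset.sum_congr rfl
    intro j _
    have h1 : tt v j = v j := clip_eq (hv j)
    rw [h1]
  choose A' hA' hAA' using fun ω => ext_alg hd hh (hA ω)
  -- measurability of h
  have hhm : @Measurable (EuclideanSpace ℝ (Fin N)) F _ (IBC.borelF F) h := by
    apply measurable_generateFrom
    intro U hU
    apply IsOpen.measurableSet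
    rw [Metric.isOpen_iff]
    intro v hv
    obtain ⟨ε, hε, hball⟩ := hU (h v) hv
    refine ⟨ε, by positivity, ?_⟩
    intro v' hv'
    apply hball
    refine lt_of_le_of_lt (gauge_pt_sub f g hF hN hf hg (a := ε / 2) (by positivity) ?_)
      (by linarith)
    intro j
    refine (abs_clip_sub _ _).trans ?_
    rw [Metric.mem_ball, dist_eq_norm] at hv'
    have h2 : |v' j - v j| ≤ ‖v' - v‖ := by
      have := PiLp.norm_apply_le (v' - v) j
      rw [PiLp.sub_apply] at this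
      exact this
    linarith
  let err : EuclideanSpace ℝ (Fin N) → Ω → ℝ := fun v ω => ‖S (h v : X) - A ω (h v)‖
  have herrm : Measurable (fun p : EuclideanSpace ℝ (Fin N) × Ω => err p.1 p.2) := by
    have h1 : @Measurable (EuclideanSpace ℝ (Fin N) × Ω) (F × Ω) _ (@Prod.instMeasurableSpace F Ω (IBC.borelF F) mΩ)
        (fun p => (h p.1, p.2)) := by
      let _ := IBC.borelF F
      exact (hhm.comp measurable_fst).prodMk measurable_snd
    exact @Measurable.comp _ _ _ _ (@Prod.instMeasurableSpace F Ω (IBC.borelF F) mΩ) _ _ _ hmeas h1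
  set T : EuclideanSpace ℝ (Fin N) →ₗ[ℝ] W := ∑ j : Fin N,
    ((EuclideanSpace.proj (𝕜 := ℝ) j).toLinearMap).smulRight (Ψ (S (f j - g j)))
    with hT
  have hTv : ∀ v : EuclideanSpace ℝ (Fin N), T v = ∑ j, v j • Ψ (S (f j - g j)) := by
    intro v
    simp [hT]
  have hsv : ∀ v ∈ cube N, Ψ (S (h v : X)) = Ψ (S (pt f g 0)) + (2 * (N : ℝ))⁻¹ • T v := by
    intro v hv
    rw [hh v hv, hTv, hl]
    have h1 : ∀ x : X, S x = S' x := fun x => rfl
    simp only [h1]
    rw [map_add, map_add, map_smul, map_smul, map_sum, map_sum]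
    congr 2
    apply Finset.sum_congr rfl
    intro j _
    rw [map_smul, map_smul]
  have hpos : ∫⁻ v in cube N, gw v ≠ 0 := by
    intro h0
    have h1 := cube_mass N
    rw [h0] at h1
    have h2 : 0 < Real.exp (-((N : ℝ) / 2)) * 2 ^ N := by positivity
    have h3 := ENNReal.ofReal_pos.mpr h2
    exact absurd h1 (not_le.mpr h3)
  have key := core_rand15 (measurableSet_cube N) hpos (k := k * d)
    (r := Real.sqrt ((N - k * d : ℕ) : ℝ) / 15) (by positivity) (small15 hN hk) (Ψ := Ψ) hκ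
    (fun a b => by rw [← map_sub]; exact hΨ _) (s := fun v => S (h v : X)) (T := T)
    (b := Ψ (S (pt f g 0))) (τ := (2 * (N : ℝ))⁻¹) (by positivity) hsv hσ0
    (fun v => by rw [hTv]; exact hσ v) hA' (μ := μ) (err := err) herrm
    (fun ω v hv => by rw [hAA' ω v hv]) (e := e)
    (fun v => by rw [he]; exact le_iSup (fun f : F => ∫⁻ ω, ENNReal.ofReal ‖S f - A ω f‖ ∂μ) (h v))
  refine le_trans (le_of_eq ?_) key
  congr 1
  field_simp
  ring

end Main

end Pool.Agent.H46.RG
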