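import Mathlib
import Pool.Agent.H46.RG.Hil

/-!
Gaussian measure of translated sections of the cube.
-/

set_option autoImplicit false
set_option linter.unusedSectionVars false

namespace Pool.Agent.H46.RG

open MeasureTheory Set Metric Module
open Pool.Agent.Helper579.Recovery Pool.Agent.Helper579.GaussCore
open scoped ENNReal RealInnerProductSpace

/-- The cube of size `R`. -/
def cubeR (N : ℕ) (R : ℝ) : Set (EuclideanSpace ℝ (Fin N)) := {v | ∀ j, |v j| ≤ R}

lemma cubeR_eq (N : ℕ) (R : ℝ) :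
    cubeR N R = (WithLp.ofLp : EuclideanSpace ℝ (Fin N) → (Fin N → ℝ)) ⁻¹'
      (Set.Icc (fun _ => -R) (fun _ => R)) := by
  ext v
  simp only [cubeR, Set.mem_preimage, Set.mem_Icc, Pi.le_def]
  constructor
  · intro h
    exact ⟨fun i => (abs_le.mp (h i)).1, fun i => (abs_le.mp (h i)).2⟩
  · intro h i
    exact abs_le.mpr ⟨h.1 i, h.2 i⟩

lemma measurableSet_cubeR (N : ℕ) (R : ℝ) : MeasurableSet (cubeR N R) := by
  rw [cubeR_eq]
  exact (PiLp.volume_preserving_ofLp (Fin N)).measurable measurableSet_Icc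

/-- the one-dimensional density on the interval -/
noncomputable def phi (R : ℝ) : ℝ → ℝ := (Icc (-R) R).indicator (fun x => Real.exp (-(x ^ 2 / 2)))

lemma phi_nonneg (R x : ℝ) : 0 ≤ phi R x := indicator_nonneg (fun _ _ => (Real.exp_pos _).le) _

lemma integrable_phi (R : ℝ) : Integrable (phi R) := by
  unfold phi
  rw [integrable_indicator_iff measurableSet_Icc]
  apply Continuous.integrableOn_Icc
  fun_prop

lemma phi_integral_ge {R : ℝ} (hR : 0 ≤ R) :
    (1 - 2 * Real.exp (-(R ^ 2 / 2))) * (2 * Real.pi) ^ ((1 : ℝ) / 2) ≤ ∫ x, phi R x := by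
  have htot : tot ℝ = ENNReal.ofReal ((2 * Real.pi) ^ ((1 : ℝ) / 2)) := by
    rw [tot_eq]; simp
  have h1 : tot ℝ ≤ ENNReal.ofReal (∫ x, phi R x) +
      (ENNReal.ofReal (Real.exp (-(R ^ 2 / 2))) * tot ℝ + ENNReal.ofReal (Real.exp (-(R ^ 2 / 2))) * tot ℝ) := by
    have hI : ENNReal.ofReal (∫ x, phi R x) = ∫⁻ x in Icc (-R) R, gw x := by
      rw [ofReal_integral_eq_lintegral_ofReal (integrable_phi R)
        (Filter.Eventually.of_forall fun x => phi_nonneg R x), ← lintegral_indicator measurableSet_Icc]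
      apply lintegral_congr
      intro x
      unfold phi
      by_cases hx : x ∈ Icc (-R) R
      · rw [indicator_of_mem hx, indicator_of_mem hx]
        unfold gw
        rw [Real.norm_eq_abs, sq_abs]
      · rw [indicator_of_notMem hx, indicator_of_notMem hx, ENNReal.ofReal_zero]
    rw [hI]
    have t1 := tail_bound (V := ℝ) (1 : ℝ) (by simp) hR
    have t2 := tail_bound (V := ℝ) (-1 : ℝ) (by simp) hR
    have hcover : (univ : Set ℝ) ⊆ Icc (-R) R ∪ ({v : ℝ | R ≤ ⟪(1 : ℝ), v⟫} ∪ {v : ℝ | R ≤ ⟪(-1 : ℝ), v⟫}) := by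
      intro x _
      by_cases hx : x ∈ Icc (-R) R
      · exact Or.inl hx
      · right
        rw [mem_Icc, not_and_or, not_le, not_le] at hx
        rcases hx with h | h
        · right
          show R ≤ ⟪(-1 : ℝ), x⟫
          rw [real_inner_comm]
          simp
          linarith
        · left
          show R ≤ ⟪(1 : ℝ), x⟫
          rw [real_inner_comm]
          simp
          linarith
    calc tot ℝ = ∫⁻ v in (univ : Set ℝ), gw v := by rw [Measure.restrict_univ]; rfl
      _ ≤ ∫⁻ v in Icc (-R) R ∪ ({v : ℝ | R ≤ ⟪(1 : ℝ), v⟫} ∪ {v : ℝ | R ≤ ⟪(-1 : ℝ), v⟫}), gw v :=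
          lintegral_mono_set hcover
      _ ≤ (∫⁻ v in Icc (-R) R, gw v) + ∫⁻ v in ({v : ℝ | R ≤ ⟪(1 : ℝ), v⟫} ∪ {v : ℝ | R ≤ ⟪(-1 : ℝ), v⟫}), gw v :=
          lintegral_union_le _ _ _
      _ ≤ (∫⁻ v in Icc (-R) R, gw v) + ((∫⁻ v in {v : ℝ | R ≤ ⟪(1 : ℝ), v⟫}, gw v) +
          ∫⁻ v in {v : ℝ | R ≤ ⟪(-1 : ℝ), v⟫}, gw v) := by
          gcongr
          exact lintegral_union_le _ _ _
      _ ≤ _ := by gcongr
  have hI0 : 0 ≤ ∫ x, phi R x := integral_nonneg (phi_nonneg R)
  rw [htot, ← ENNReal.ofReal_mul (by positivity), ← ENNReal.ofReal_add (by positivity) (by positivity),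
    ← ENNReal.ofReal_add hI0 (by positivity), ENNReal.ofReal_le_ofReal_iff (by positivity)] at h1
  linarith

lemma cubeR_mass_eq (N : ℕ) (R : ℝ) :
    ∫⁻ v in cubeR N R, gw v = ENNReal.ofReal ((∫ x, phi R x) ^ N) := by
  have h1 : ∀ v : EuclideanSpace ℝ (Fin N), (cubeR N R).indicator gw v =
      ENNReal.ofReal (∏ i, phi R ((WithLp.ofLp v) i)) := by
    intro v
    by_cases hv : v ∈ cubeR N R
    · rw [indicator_of_mem hv]
      unfold gw
      congr 1
      have h2 : ∀ i, phi R ((WithLp.ofLp v) i) = Real.exp (-((WithLp.ofLp v) i ^ 2 / 2)) := by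
        intro i
        unfold phi
        exact indicator_of_mem (show (WithLp.ofLp v) i ∈ Icc (-R) R from abs_le.mp (hv i)) _
      rw [Finset.prod_congr rfl fun i _ => h2 i, ← Real.exp_sum]
      congr 1
      rw [EuclideanSpace.norm_eq, Real.sq_sqrt (Finset.sum_nonneg fun i _ => by positivity),
        Finset.sum_neg_distrib, Finset.sum_div]
      simp
    · rw [indicator_of_notMem hv]
      have hex : ∃ i, ¬ |v i| ≤ R := by
        by_contra hcon
        push Not at hcon
        exact hv hcon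
      obtain ⟨i, hi⟩ := hex
      have h3 : phi R ((WithLp.ofLp v) i) = 0 := by
        have hni : (WithLp.ofLp v) i ∉ Icc (-R) R := fun h => hi (abs_le.mpr h)
        unfold phi
        exact indicator_of_notMem hni (fun x => Real.exp (-(x ^ 2 / 2)))
      have h4 : ∏ i, phi R ((WithLp.ofLp v) i) = 0 := Finset.prod_eq_zero (Finset.mem_univ i) h3
      rw [h4, ENNReal.ofReal_zero]
  rw [← lintegral_indicator (measurableSet_cubeR N R)]
  simp_rw [h1]
  have h4 : Measurable (fun x : Fin N → ℝ => ENNReal.ofReal (∏ i, phi R (x i))) := by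
    apply Measurable.ennreal_ofReal
    apply Finset.measurable_prod
    intro i _
    have : Measurable (phi R) := by
      unfold phi
      exact Measurable.indicator (by fun_prop) measurableSet_Icc
    exact this.comp (measurable_pi_apply i)
  have h5 := (PiLp.volume_preserving_ofLp (Fin N)).lintegral_comp h4
  have hint : Integrable (fun x : Fin N → ℝ => ∏ i, phi R (x i)) volume :=
    Integrable.fintype_prod (fun _ => integrable_phi R)
  rw [h5, ← ofReal_integral_eq_lintegral_ofReal hint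
    (Filter.Eventually.of_forall fun x => Finset.prod_nonneg fun i _ => phi_nonneg R _)]
  congr 1
  have h6 := integral_fintype_prod_volume_eq_pow (ι := Fin N) (phi R)
  rw [Fintype.card_fin] at h6
  exact h6

lemma cubeR_mass (N : ℕ) {R : ℝ} (hR : 0 ≤ R) (h1 : 2 * Real.exp (-(R ^ 2 / 2)) ≤ 1) :
    ENNReal.ofReal ((1 - 2 * Real.exp (-(R ^ 2 / 2))) ^ N) * tot (EuclideanSpace ℝ (Fin N)) ≤
      ∫⁻ v in cubeR N R, gw v := by
  rw [cubeR_mass_eq, tot_eq, finrank_euclideanSpace_fin, ← ENNReal.ofReal_mul (by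
    have : 0 ≤ 1 - 2 * Real.exp (-(R ^ 2 / 2)) := by linarith
    positivity)]
  apply ENNReal.ofReal_le_ofReal
  have h2 : (2 * Real.pi) ^ ((N : ℝ) / 2) = ((2 * Real.pi) ^ ((1 : ℝ) / 2)) ^ N := by
    rw [← Real.rpow_natCast, ← Real.rpow_mul (by positivity)]
    congr 1; ring
  rw [h2, ← mul_pow]
  apply pow_le_pow_left₀ _ (phi_integral_ge hR)
  have : 0 ≤ 1 - 2 * Real.exp (-(R ^ 2 / 2)) := by linarith
  positivity

/-- Some translate of a subspace meets a set in a set of large Gaussian measure. -/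
lemma exists_shift {V₀ : Type} [NormedAddCommGroup V₀] [InnerProductSpace ℝ V₀]
    [FiniteDimensional ℝ V₀] [MeasurableSpace V₀] [BorelSpace V₀]
    (V : Submodule ℝ V₀) {A : Set V₀} (hA : MeasurableSet A)
    {a : ℝ≥0∞} (ha0 : a ≠ 0) (hat : a ≠ ∞) (h : a * tot V₀ ≤ ∫⁻ v in A, gw v) :
    ∃ w : V₀, a / 2 * tot V ≤ ∫⁻ v in {v : V | (v : V₀) + w ∈ A}, gw v := by
  by_contra hcon
  push Not at hcon
  have hms : ∀ w : V₀, MeasurableSet {v : V | (v : V₀) + w ∈ A} := by
    intro w
    have : Measurable (fun v : V => (v : V₀) + w) := by fun_prop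
    exact this hA
  have h1 : ∫⁻ v in A, gw v ≤ a / 2 * tot V₀ := by
    calc ∫⁻ v in A, gw v = ∫⁻ v, A.indicator gw v := (lintegral_indicator hA _).symm
      _ = ∫⁻ s : V, ∫⁻ w : Vᗮ, A.indicator gw ((s : V₀) + (w : V₀)) :=
          lintegral_split V _ (measurable_gw.indicator hA)
      _ = ∫⁻ w : Vᗮ, ∫⁻ s : V, A.indicator gw ((s : V₀) + (w : V₀)) := by
          apply lintegral_lintegral_swap
          apply Measurable.aemeasurable
          have : Measurable (fun p : V × Vᗮ => (p.1 : V₀) + (p.2 : V₀)) := by fun_prop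
          exact (measurable_gw.indicator hA).comp this
      _ ≤ ∫⁻ w : Vᗮ, gw w * (a / 2 * tot V) := by
          apply lintegral_mono
          intro w
          show ∫⁻ s : V, A.indicator gw ((s : V₀) + (w : V₀)) ≤ gw w * (a / 2 * tot V)
          have h2 : ∫⁻ s : V, A.indicator gw ((s : V₀) + (w : V₀))
              = gw w * ∫⁻ s in {v : V | (v : V₀) + (w : V₀) ∈ A}, gw s := by
            rw [← lintegral_indicator (hms w), ← lintegral_const_mul _
              (measurable_gw.indicator (hms w))]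
            apply lintegral_congr
            intro s
            by_cases hs : (s : V₀) + (w : V₀) ∈ A
            · rw [indicator_of_mem hs, indicator_of_mem (show s ∈ {v : V | (v : V₀) + (w : V₀) ∈ A} from hs),
                gw_add, mul_comm]
            · rw [indicator_of_notMem hs, indicator_of_notMem (show s ∉ {v : V | (v : V₀) + (w : V₀) ∈ A} from hs),
                mul_zero]
          rw [h2]
          gcongr
          exact (hcon w).le
      _ = tot Vᗮ * (a / 2 * tot V) := by
          rw [lintegral_mul_const _ measurable_gw]; rfl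
      _ = a / 2 * tot V₀ := by rw [tot_split V]; ring
  have h2 : a * tot V₀ ≤ a / 2 * tot V₀ := h.trans h1
  have h3 : a ≤ a / 2 := (ENNReal.mul_le_mul_iff_left tot_pos tot_ne_top).mp h2
  exact absurd h3 (not_le.mpr (ENNReal.half_lt_self ha0 hat))

end Pool.Agent.H46.RG
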