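import Mathlib
import Pool.Agent.H46.RG.Sec

/-!
The lower bound for randomized algorithms from a translated section of the cube.
-/

set_option autoImplicit false
set_option linter.unusedSectionVars false

namespace Pool.Agent.H46.RG

open MeasureTheory Set Metric Module
open Pool.Agent.Helper579.Recovery Pool.Agent.Helper579.GaussCore
open Pool.Agent.Helper579.RanLower Pool.Agent.Helper579.Greedy
open Pool.Agent.Helper579
open scoped ENNReal RealInnerProductSpace Pointwise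

section Main

variable {𝕜 : Type} [RCLike 𝕜] {X Y : Type} [NormedAddCommGroup X] [NormedSpace 𝕜 X]
  [NormedSpace ℝ X] [IsScalarTower ℝ 𝕜 X] [NormedAddCommGroup Y] [NormedSpace 𝕜 Y]
  [NormedSpace ℝ Y] [IsScalarTower ℝ 𝕜 Y]
variable {W : Type} [NormedAddCommGroup W] [NormedSpace ℝ W]

theorem ran_shift {d : ℕ} (hd : Enc 𝕜 d) (S : X →L[𝕜] Y) {F : Set X} (hF : Convex ℝ F)
    {N : ℕ} (hN : 0 < N) {f g : Fin N → X} (hf : ∀ j, f j ∈ F) (hg : ∀ j, g j ∈ F)
    (Ψ : Y →ₗ[ℝ] W) {κ : ℝ} (hκ : 0 < κ) (hΨ : ∀ y, ‖Ψ y‖ ≤ κ * ‖y‖)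
    (V : Submodule ℝ (EuclideanSpace ℝ (Fin N))) {σ : ℝ} (hσ0 : 0 ≤ σ)
    (hσ : ∀ v ∈ V, σ * ‖v‖ ≤ ‖∑ j, v j • Ψ (S (f j - g j))‖)
    {k : ℕ} {R : ℝ} (hR : 0 < R) (w : EuclideanSpace ℝ (Fin N)) {r : ℝ} (hr : 0 ≤ r)
    (hpos : ∫⁻ v in {v : V | (v : EuclideanSpace ℝ (Fin N)) + w ∈ cubeR N R}, gw v ≠ 0)
    (hsmall : 2 * (ENNReal.ofReal (Real.exp (112 * r ^ 2)) *
      (1 / 15 : ℝ≥0∞) ^ (finrank ℝ V - k * d) * tot V) ≤
        ∫⁻ v in {v : V | (v : EuclideanSpace ℝ (Fin N)) + w ∈ cubeR N R}, gw v)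
    {e : ℝ≥0∞} (he : e ∈ IBC.ranErrors 𝕜 S F k) :
    ENNReal.ofReal (r * σ / (8 * N * R * κ)) ≤ e := by
  classical
  have hNr : (1 : ℝ) ≤ N := by exact_mod_cast hN
  obtain ⟨Ω, mΩ, μ, hμ, A, hA, hmeas, he⟩ := he
  set Good : Set V := {v : V | (v : EuclideanSpace ℝ (Fin N)) + w ∈ cubeR N R} with hGoodDef
  have hGoodm : MeasurableSet Good := by
    have : Measurable (fun v : V => (v : EuclideanSpace ℝ (Fin N)) + w) := by fun_prop
    exact this (measurableSet_cubeR N R)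
  let S' : X →ₗ[ℝ] Y := S.toLinearMap.restrictScalars ℝ
  let tt : V → Fin N → ℝ := fun v j => clip (((v : EuclideanSpace ℝ (Fin N)) j + w j) / R)
  have htt : ∀ v j, |tt v j| ≤ 1 := fun v j => abs_clip_le _
  let h : V → F := fun v => ⟨pt f g (tt v), pt_mem f g hF hN hf hg (htt v)⟩
  let l : V →ₗ[ℝ] X := (2 * (N : ℝ) * R)⁻¹ • ∑ j : Fin N,
    ((EuclideanSpace.proj (𝕜 := ℝ) j).toLinearMap ∘ₗ V.subtype).smulRight (f j - g j)
  have hl : ∀ v : V, l v = (2 * (N : ℝ) * R)⁻¹ • ∑ j, (v : EuclideanSpace ℝ (Fin N)) j • (f j - g j) := by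
    intro v
    simp [l]
  set b₀ : X := pt f g 0 + (2 * (N : ℝ) * R)⁻¹ • ∑ j, w j • (f j - g j) with hb₀
  have hh : ∀ v ∈ Good, (h v : X) = b₀ + l v := by
    intro v hv
    show pt f g (tt v) = _
    rw [pt_eq, hl, hb₀, add_assoc]
    congr 1
    have h1 : ∀ j, tt v j = ((v : EuclideanSpace ℝ (Fin N)) j + w j) / R := by
      intro j
      apply clip_eq
      rw [abs_div, abs_of_pos hR, div_le_one hR]
      exact hv j
    rw [← smul_add, ← Finset.sum_add_distrib, mul_inv _ R, mul_smul, Finset.smul_sum (r := R⁻¹)]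
    congr 1
    apply Finset.sum_congr rfl
    intro j _
    rw [h1, ← add_smul, smul_smul]
    congr 1
    rw [div_eq_mul_inv, mul_comm, add_comm]
  choose A' hA' hAA' using fun ω => ext_alg hd hh (hA ω)
  -- measurability of h
  have hhm : @Measurable V F _ (IBC.borelF F) h := by
    apply measurable_generateFrom
    intro U hU
    apply IsOpen.measurableSet
    rw [Metric.isOpen_iff]
    intro v hv
    obtain ⟨ε, hε, hball⟩ := hU (h v) hv
    refine ⟨R * ε, by positivity, ?_⟩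
    intro v' hv'
    apply hball
    refine lt_of_le_of_lt (gauge_pt_sub f g hF hN hf hg (a := ε / 2) (by positivity) ?_)
      (by linarith)
    intro j
    refine (abs_clip_sub _ _).trans ?_
    rw [← sub_div, abs_div, abs_of_pos hR, div_le_iff₀ hR, add_sub_add_right_eq_sub]
    rw [Metric.mem_ball, dist_eq_norm] at hv'
    have h2 : |(v' : EuclideanSpace ℝ (Fin N)) j - (v : EuclideanSpace ℝ (Fin N)) j| ≤ ‖v' - v‖ := by
      have := PiLp.norm_apply_le ((v' - v : V) : EuclideanSpace ℝ (Fin N)) j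
      simpa using this
    linarith
  let err : V → Ω → ℝ := fun v ω => ‖S (h v : X) - A ω (h v)‖
  have herrm : Measurable (fun p : V × Ω => err p.1 p.2) := by
    have h1 : @Measurable (V × Ω) (F × Ω) _ (@Prod.instMeasurableSpace F Ω (IBC.borelF F) mΩ)
        (fun p => (h p.1, p.2)) := by
      let _ := IBC.borelF F
      exact (hhm.comp measurable_fst).prodMk measurable_snd
    exact @Measurable.comp _ _ _ _ (@Prod.instMeasurableSpace F Ω (IBC.borelF F) mΩ) _ _ _ hmeas h1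
  set T : V →ₗ[ℝ] W := ∑ j : Fin N,
    ((EuclideanSpace.proj (𝕜 := ℝ) j).toLinearMap ∘ₗ V.subtype).smulRight (Ψ (S (f j - g j)))
    with hT
  have hTv : ∀ v : V, T v = ∑ j, (v : EuclideanSpace ℝ (Fin N)) j • Ψ (S (f j - g j)) := by
    intro v
    simp [hT]
  have hsv : ∀ v ∈ Good, Ψ (S (h v : X)) = Ψ (S b₀) + (2 * (N : ℝ) * R)⁻¹ • T v := by
    intro v hv
    rw [hh v hv, hTv, hl]
    have h1 : ∀ x : X, S x = S' x := fun x => rfl
    simp only [h1]
    rw [map_add, map_add, map_smul, map_smul, map_sum, map_sum]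
    congr 2
    apply Finset.sum_congr rfl
    intro j _
    rw [map_smul, map_smul]
  have key := core_rand15 hGoodm hpos (k := k * d) hr hsmall (Ψ := Ψ) hκ
    (fun a b => by rw [← map_sub]; exact hΨ _) (s := fun v => S (h v : X)) (T := T)
    (b := Ψ (S b₀)) (τ := (2 * (N : ℝ) * R)⁻¹) (by positivity) hsv hσ0
    (fun v => by rw [hTv]; exact hσ v v.2) hA' (μ := μ) (err := err) herrm
    (fun ω v hv => by rw [hAA' ω v hv]) (e := e)
    (fun v => by rw [he]; exact le_iSup (fun f : F => ∫⁻ ω, ENNReal.ofReal ‖S f - A ω f‖ ∂μ) (h v))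
  refine le_trans (le_of_eq ?_) key
  congr 1
  field_simp
  ring

lemma num_shift {m m' : ℕ} (hm' : 1 ≤ m') (h : m ≤ 2 * m') :
    2 * (Real.exp (112 * (Real.sqrt m' / 15) ^ 2) * (1 / 15) ^ m') ≤
      Real.exp (-((m : ℝ) / 4)) / 2 := by
  have h3 : Real.exp (112 * (Real.sqrt m' / 15) ^ 2) ≤ (165 / 100) ^ m' := by
    rw [div_pow, Real.sq_sqrt (by positivity)]
    calc Real.exp (112 * ((m' : ℝ) / 15 ^ 2)) ≤ Real.exp (m' * (1 / 2)) := by
          apply Real.exp_le_exp.mpr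
          have : (0 : ℝ) ≤ m' := by positivity
          nlinarith
      _ = Real.exp (1 / 2) ^ m' := by rw [Real.exp_nat_mul]
      _ ≤ _ := pow_le_pow_left₀ (Real.exp_pos _).le exp_half_le m'
  have h4 : (100 / 165 : ℝ) ^ m' ≤ Real.exp (-((m : ℝ) / 4)) := by
    have h5 : (100 / 165 : ℝ) ≤ Real.exp (-(1 / 2)) := by
      rw [Real.exp_neg]
      rw [le_inv_comm₀ (by norm_num) (Real.exp_pos _)]
      refine exp_half_le.trans ?_
      norm_num
    calc (100 / 165 : ℝ) ^ m' ≤ Real.exp (-(1 / 2)) ^ m' := pow_le_pow_left₀ (by norm_num) h5 m'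
      _ = Real.exp (-((m' : ℝ) / 2)) := by rw [← Real.exp_nat_mul]; congr 1; ring
      _ ≤ _ := by
        apply Real.exp_le_exp.mpr
        have : (m : ℝ) ≤ 2 * m' := by exact_mod_cast h
        linarith
  have h6 : (165 / 100 : ℝ) ^ m' * (1 / 15) ^ m' ≤ (1 / 4) * (100 / 165) ^ m' := by
    have h7 : (165 / 100 : ℝ) ^ m' * (1 / 15) ^ m' = ((165 / 100) * (1 / 15) * (165 / 100)) ^ m' * (100 / 165) ^ m' := by
      rw [← mul_pow, ← mul_pow]; congr 1; norm_num
    rw [h7]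
    have h8 : ((165 / 100 : ℝ) * (1 / 15) * (165 / 100)) ^ m' ≤ ((165 / 100) * (1 / 15) * (165 / 100)) ^ 1 :=
      pow_le_pow_of_le_one (by norm_num) (by norm_num) hm'
    have h9 : ((165 / 100 : ℝ) * (1 / 15) * (165 / 100)) ^ m' ≤ 1 / 4 := h8.trans (by norm_num)
    gcongr
  calc 2 * (Real.exp (112 * (Real.sqrt m' / 15) ^ 2) * (1 / 15) ^ m')
      ≤ 2 * ((165 / 100) ^ m' * (1 / 15) ^ m') := by gcongr
    _ ≤ 2 * ((1 / 4) * (100 / 165) ^ m') := by gcongr
    _ ≤ 2 * ((1 / 4) * Real.exp (-((m : ℝ) / 4))) := by gcongr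
    _ = _ := by ring

/-- the size of the cube for sections of dimension `m` -/
noncomputable def Rm (N m : ℕ) : ℝ := Real.sqrt (2 * Real.log (16 * N / m))

lemma Rm_pos {N m : ℕ} (hm : 1 ≤ m) (hmN : m ≤ N) : 0 < Rm N m := by
  unfold Rm
  apply Real.sqrt_pos.mpr
  have h1 : (0 : ℝ) < m := by exact_mod_cast hm
  have h2 : (m : ℝ) ≤ N := by exact_mod_cast hmN
  have : 0 < Real.log (16 * N / m) := by
    apply Real.log_pos
    rw [lt_div_iff₀ h1]
    linarith
  positivity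

lemma Rm_exp {N m : ℕ} (hm : 1 ≤ m) (hmN : m ≤ N) :
    Real.exp (-((Rm N m) ^ 2 / 2)) = m / (16 * N) := by
  unfold Rm
  have h1 : (0 : ℝ) < m := by exact_mod_cast hm
  have h2 : (m : ℝ) ≤ N := by exact_mod_cast hmN
  have h3 : 0 < Real.log (16 * N / m) := by
    apply Real.log_pos
    rw [lt_div_iff₀ h1]
    linarith
  have hN0 : (0 : ℝ) < N := by linarith
  have h4 : (0 : ℝ) < 16 * N / m := by positivity
  rw [Real.sq_sqrt (by positivity), mul_div_assoc, mul_comm, div_mul_cancel₀ _ (by norm_num),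
    Real.exp_neg, Real.exp_log h4, inv_div]

lemma pow_ge_exp {N m : ℕ} (hm : 1 ≤ m) (hmN : m ≤ N) :
    Real.exp (-((m : ℝ) / 4)) ≤ (1 - 2 * ((m : ℝ) / (16 * N))) ^ N := by
  have h1 : (0 : ℝ) < m := by exact_mod_cast hm
  have h2 : (m : ℝ) ≤ N := by exact_mod_cast hmN
  have hN : (0 : ℝ) < N := by linarith
  set x : ℝ := 2 * ((m : ℝ) / (16 * N)) with hx
  have hx0 : 0 ≤ x := by positivity
  have hx1 : x ≤ 1 / 8 := by
    rw [hx, ← mul_div_assoc, div_le_iff₀ (by positivity)]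
    linarith
  have h3 : Real.exp (-(2 * x)) ≤ 1 - x := by
    have h4 : 1 + 2 * x ≤ Real.exp (2 * x) := by
      have := Real.add_one_le_exp (2 * x); linarith
    rw [Real.exp_neg]
    rw [inv_le_comm₀ (Real.exp_pos _) (by linarith)]
    refine le_trans ?_ h4
    rw [inv_le_iff_one_le_mul₀ (by linarith)]
    nlinarith
  calc Real.exp (-((m : ℝ) / 4)) = Real.exp (-(2 * x)) ^ N := by
        rw [← Real.exp_nat_mul]
        congr 1
        rw [hx]
        field_simp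
        norm_num
    _ ≤ _ := pow_le_pow_left₀ (Real.exp_pos _).le h3 N

/-- The lower bound from a subspace of dimension `m`. -/
theorem ran_section {d : ℕ} (hd : Enc 𝕜 d) (S : X →L[𝕜] Y) {F : Set X} (hF : Convex ℝ F)
    {N : ℕ} (hN : 0 < N) {f g : Fin N → X} (hf : ∀ j, f j ∈ F) (hg : ∀ j, g j ∈ F)
    (Ψ : Y →ₗ[ℝ] W) {κ : ℝ} (hκ : 0 < κ) (hΨ : ∀ y, ‖Ψ y‖ ≤ κ * ‖y‖)
    (V : Submodule ℝ (EuclideanSpace ℝ (Fin N))) {m : ℕ} (hm : 1 ≤ m) (hVm : finrank ℝ V = m)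
    {σ : ℝ} (hσ0 : 0 ≤ σ)
    (hσ : ∀ v ∈ V, σ * ‖v‖ ≤ ‖∑ j, v j • Ψ (S (f j - g j))‖)
    {k : ℕ} (hk : 2 * (k * d) ≤ m) :
    ENNReal.ofReal (Real.sqrt ((m - k * d : ℕ) : ℝ) * σ / (120 * N * Rm N m * κ)) ≤
      IBC.ranErr 𝕜 S F k := by
  have hmN : m ≤ N := by
    rw [← hVm]
    have := V.finrank_le
    rwa [finrank_euclideanSpace_fin] at this
  have hR := Rm_pos hm hmN
  have hexp := Rm_exp hm hmN
  have h1r : (0 : ℝ) < m := by exact_mod_cast hm
  have h2r : (m : ℝ) ≤ N := by exact_mod_cast hmN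
  have hNr : (0 : ℝ) < N := by linarith
  have hsm : 2 * Real.exp (-((Rm N m) ^ 2 / 2)) ≤ 1 := by
    rw [hexp, ← mul_div_assoc, div_le_one (by positivity)]
    linarith
  have hmass := cubeR_mass N hR.le hsm
  have hge : ENNReal.ofReal (Real.exp (-((m : ℝ) / 4))) * tot (EuclideanSpace ℝ (Fin N)) ≤
      ∫⁻ v in cubeR N (Rm N m), gw v := by
    refine le_trans ?_ hmass
    gcongr
    rw [hexp]
    exact pow_ge_exp hm hmN
  obtain ⟨w, hw⟩ := exists_shift V (measurableSet_cubeR N (Rm N m))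
    (a := ENNReal.ofReal (Real.exp (-((m : ℝ) / 4)))) (ENNReal.ofReal_pos.mpr (Real.exp_pos _)).ne'
    ENNReal.ofReal_ne_top hge
  have hpos : ∫⁻ v in {v : V | (v : EuclideanSpace ℝ (Fin N)) + w ∈ cubeR N (Rm N m)}, gw v ≠ 0 := by
    intro h0
    rw [h0] at hw
    have h3 := le_antisymm hw bot_le
    rw [mul_eq_zero] at h3
    rcases h3 with h3 | h3
    · rw [ENNReal.div_eq_zero_iff] at h3
      rcases h3 with h3 | h3
      · exact (ENNReal.ofReal_pos.mpr (Real.exp_pos _)).ne' h3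
      · exact absurd h3 (by norm_num)
    · exact tot_pos h3
  have hsmall : 2 * (ENNReal.ofReal (Real.exp (112 * (Real.sqrt ((m - k * d : ℕ) : ℝ) / 15) ^ 2)) *
      (1 / 15 : ℝ≥0∞) ^ (finrank ℝ V - k * d) * tot V) ≤
        ∫⁻ v in {v : V | (v : EuclideanSpace ℝ (Fin N)) + w ∈ cubeR N (Rm N m)}, gw v := by
    refine le_trans ?_ hw
    rw [hVm]
    have h1 : (1 / 15 : ℝ≥0∞) ^ (m - k * d) = ENNReal.ofReal ((1 / 15) ^ (m - k * d)) := by
      rw [ENNReal.ofReal_pow (by norm_num)]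
      congr 1
      rw [ENNReal.ofReal_div_of_pos (by norm_num)]
      simp
    have h2 : (2 : ℝ≥0∞) = ENNReal.ofReal 2 := by simp
    rw [h1, ← mul_assoc]
    gcongr
    rw [h2, ← ENNReal.ofReal_mul (by positivity), ← ENNReal.ofReal_mul (by positivity),
      ← ENNReal.ofReal_div_of_pos (by norm_num)]
    exact ENNReal.ofReal_le_ofReal (num_shift (by omega) (by omega))
  apply le_sInf
  intro e he
  have key := ran_shift hd S hF hN hf hg Ψ hκ hΨ V hσ0 hσ hR w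
    (r := Real.sqrt ((m - k * d : ℕ) : ℝ) / 15) (by positivity) hpos hsmall he
  refine le_trans (le_of_eq ?_) key
  congr 1
  field_simp
  ring

end Main

end Pool.Agent.H46.RG
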