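import Mathlib
import Pool.Agent.H46.RG.Shift
import Pool.Graph.R_seed8.Helper579.Rates

/-!
The product of the errors of randomized algorithms dominates the error of deterministic non-adaptive
algorithms, for arbitrary target spaces.
-/

set_option autoImplicit false
set_option linter.unusedSectionVars false

namespace Pool.Agent.H46.RG

open MeasureTheory Set Metric Module
open Pool.Agent.Helper579.RanLower Pool.Agent.Helper579.Greedy Pool.Agent.Helper579.IBC
open Pool.Agent.Helper579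
open scoped ENNReal Pointwise RealInnerProductSpace

/-- the flag of the singular subspaces -/
theorem exists_flag {N : ℕ} (T : EuclideanSpace ℝ (Fin N) →ₗ[ℝ] EuclideanSpace ℝ (Fin N)) :
    ∃ (V : Fin N → Submodule ℝ (EuclideanSpace ℝ (Fin N))) (σ : Fin N → ℝ),
      (∀ i, finrank ℝ (V i) = i + 1) ∧ (∀ i, 0 ≤ σ i) ∧
      (∀ i, ∀ v ∈ V i, σ i * ‖v‖ ≤ ‖T v‖) ∧ |LinearMap.det T| = ∏ i, σ i := by
  classical
  set H := LinearMap.adjoint T ∘ₗ T with hH
  have hsym : H.IsSymmetric := LinearMap.isSymmetric_adjoint_comp_self T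
  have hfr : finrank ℝ (EuclideanSpace ℝ (Fin N)) = N := finrank_euclideanSpace_fin
  set lam := hsym.eigenvalues hfr with hlam
  set b := hsym.eigenvectorBasis hfr with hb
  have hanti : Antitone lam := hsym.eigenvalues_antitone hfr
  have hTsq : ∀ v, ‖T v‖ ^ 2 = ∑ i, lam i * (b.repr v i) ^ 2 := by
    intro v
    have h1 : ‖T v‖ ^ 2 = ⟪v, H v⟫ := by
      rw [hH, LinearMap.comp_apply, LinearMap.adjoint_inner_right, real_inner_self_eq_norm_sq]
    have h2 : ⟪v, H v⟫ = ⟪b.repr v, b.repr (H v)⟫ := (b.repr.inner_map_map v (H v)).symm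
    rw [h1, h2, PiLp.inner_apply]
    apply Finset.sum_congr rfl
    intro i _
    rw [hsym.eigenvectorBasis_apply_self_apply hfr v i]
    simp only [RCLike.inner_apply, conj_trivial, RCLike.ofReal_real_eq_id, id_eq]
    ring
  have hnsq : ∀ v, ‖v‖ ^ 2 = ∑ i, (b.repr v i) ^ 2 := by
    intro v
    rw [← b.repr.norm_map v, EuclideanSpace.norm_eq, Real.sq_sqrt (Finset.sum_nonneg fun i _ => by positivity)]
    apply Finset.sum_congr rfl
    intro i _
    rw [Real.norm_eq_abs, sq_abs]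
  have hlam0 : ∀ i, 0 ≤ lam i := by
    intro i
    have h1 := hTsq (b i)
    rw [Finset.sum_eq_single i] at h1
    · have h2 : b.repr (b i) i = 1 := by simp
      rw [h2] at h1
      have : 0 ≤ ‖T (b i)‖ ^ 2 := by positivity
      linarith
    · intro j _ hj
      have : b.repr (b i) j = 0 := by simp [hj]
      rw [this]; ring
    · simp
  have hdetH : (LinearMap.det T) ^ 2 = ∏ i, lam i := by
    have h1 := hsym.det_eq_prod_eigenvalues hfr
    have h2 : LinearMap.det H = LinearMap.det T ^ 2 := by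
      rw [hH, LinearMap.det_comp, Sing.det_adjoint, sq]
    rw [← h2, h1]
    rfl
  -- the subspaces
  let em : (l : Fin N) → Fin (l + 1) → Fin N := fun l i => ⟨i.1, lt_of_lt_of_le i.2 l.2⟩
  have hem : ∀ l, Function.Injective (em l) := by
    intro l i j hij
    have := congrArg Fin.val hij
    exact Fin.ext this
  let V : Fin N → Submodule ℝ (EuclideanSpace ℝ (Fin N)) :=
    fun l => Submodule.span ℝ (Set.range (fun i : Fin (l + 1) => b (em l i)))
  have hVrank : ∀ l, finrank ℝ (V l) = l + 1 := by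
    intro l
    have hli : LinearIndependent ℝ (fun i : Fin (l + 1) => b (em l i)) :=
      b.orthonormal.linearIndependent.comp (em l) (hem l)
    show finrank ℝ (Submodule.span ℝ (Set.range (fun i : Fin (l + 1) => b (em l i)))) = _
    rw [finrank_span_eq_card hli, Fintype.card_fin]
  have hVrepr : ∀ l, ∀ v ∈ V l, ∀ i : Fin N, l < i → b.repr v i = 0 := by
    intro l v hv
    induction hv using Submodule.span_induction with
    | mem x hx =>
      obtain ⟨j, rfl⟩ := hx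
      intro i hi
      have hne : i ≠ em l j := by
        intro h
        rw [h, Fin.lt_def] at hi
        simp only [em] at hi
        have := j.2
        omega
      simp [hne]
    | zero => intro i _; simp
    | add x y _ _ hx hy => intro i hi; rw [map_add, PiLp.add_apply, hx i hi, hy i hi, add_zero]
    | smul a x _ hx => intro i hi; rw [map_smul, PiLp.smul_apply, hx i hi, smul_zero]
  refine ⟨V, fun l => Real.sqrt (lam l), hVrank, fun l => Real.sqrt_nonneg _, ?_, ?_⟩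
  · intro l v hv
    apply le_of_sq_le_sq _ (norm_nonneg _)
    rw [mul_pow, Real.sq_sqrt (hlam0 _), hTsq, hnsq, Finset.mul_sum]
    apply Finset.sum_le_sum
    intro i _
    rcases lt_or_ge l i with h | h
    · rw [hVrepr l v hv i h]; simp
    · exact mul_le_mul_of_nonneg_right (hanti h) (by positivity)
  · have h1 : (∏ i, Real.sqrt (lam i)) ^ 2 = |LinearMap.det T| ^ 2 := by
      rw [← Finset.prod_pow, sq_abs, hdetH]
      exact Finset.prod_congr rfl fun i _ => Real.sq_sqrt (hlam0 i)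
    have h2 : 0 ≤ ∏ i, Real.sqrt (lam i) := Finset.prod_nonneg fun i _ => Real.sqrt_nonneg _
    exact ((sq_eq_sq₀ h2 (abs_nonneg _)).mp h1).symm

lemma factorial_prod (N : ℕ) : ∏ i : Fin N, (((i : ℕ) : ℝ) + 1) = (Nat.factorial N : ℝ) := by
  rw [Fin.prod_univ_eq_prod_range (fun i => ((i : ℝ) + 1)) N, ← Finset.prod_range_add_one_eq_factorial]
  push_cast
  rfl

lemma factorial_ge (N : ℕ) : ((N : ℝ) / Real.exp 1) ^ N ≤ (Nat.factorial N : ℝ) := by
  have h := Real.pow_div_factorial_le_exp (N : ℝ) (by positivity) N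
  have h1 : (0 : ℝ) < Nat.factorial N := by exact_mod_cast Nat.factorial_pos N
  have h2 : Real.exp (N : ℝ) = Real.exp 1 ^ N := by rw [← Real.exp_nat_mul, mul_one]
  rw [div_pow, div_le_iff₀ (by positivity), ← h2]
  rw [div_le_iff₀ h1] at h
  linarith

lemma prod_sqrt_ge {N d : ℕ} :
    (Real.sqrt ((N : ℝ) / (2 * Real.exp 1))) ^ N ≤
      ∏ i : Fin N, Real.sqrt (((i : ℕ) + 1 - ((i : ℕ) + 1) / (2 * d) * d : ℕ) : ℝ) := by
  have h1 : ∀ i : Fin N, (((i : ℕ) : ℝ) + 1) / 2 ≤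
      (((i : ℕ) + 1 - ((i : ℕ) + 1) / (2 * d) * d : ℕ) : ℝ) := by
    intro i
    have h2 : 2 * (((i : ℕ) + 1) / (2 * d) * d) ≤ (i : ℕ) + 1 := by
      calc 2 * (((i : ℕ) + 1) / (2 * d) * d) = ((i : ℕ) + 1) / (2 * d) * (2 * d) := by ring
        _ ≤ _ := Nat.div_mul_le_self _ _
    rw [Nat.cast_sub (by omega)]
    have h3 : (2 : ℝ) * ((((i : ℕ) + 1) / (2 * d) * d : ℕ) : ℝ) ≤ ((i : ℕ) : ℝ) + 1 := by
      exact_mod_cast h2
    push_cast at h3 ⊢
    linarith
  have h4 : ∏ i : Fin N, Real.sqrt ((((i : ℕ) : ℝ) + 1) / 2) ≤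
      ∏ i : Fin N, Real.sqrt (((i : ℕ) + 1 - ((i : ℕ) + 1) / (2 * d) * d : ℕ) : ℝ) :=
    Finset.prod_le_prod (fun i _ => Real.sqrt_nonneg _) (fun i _ => Real.sqrt_le_sqrt (h1 i))
  refine le_trans ?_ h4
  have h5 : 0 ≤ ∏ i : Fin N, Real.sqrt ((((i : ℕ) : ℝ) + 1) / 2) :=
    Finset.prod_nonneg fun i _ => Real.sqrt_nonneg _
  apply le_of_sq_le_sq _ h5
  have h6 : (∏ i : Fin N, Real.sqrt ((((i : ℕ) : ℝ) + 1) / 2)) ^ 2 =
      (Nat.factorial N : ℝ) / 2 ^ N := by
    rw [← Finset.prod_pow, ← factorial_prod, ← Finset.card_fin N, ← Finset.prod_const,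
      Finset.card_fin, ← Finset.prod_div_distrib]
    exact Finset.prod_congr rfl fun i _ => Real.sq_sqrt (by positivity)
  have h7 : (Real.sqrt ((N : ℝ) / (2 * Real.exp 1)) ^ N) ^ 2 = ((N : ℝ) / Real.exp 1) ^ N / 2 ^ N := by
    rw [← pow_mul, mul_comm N 2, pow_mul, Real.sq_sqrt (by positivity), ← div_pow]
    congr 1
    field_simp
  rw [h6, h7]
  gcongr
  exact factorial_ge N

lemma sum_log_le {N : ℕ} (hN : 0 < N) :
    ∑ i : Fin N, 2 * Real.log (16 * N / (((i : ℕ) + 1 : ℕ) : ℝ)) ≤ N * (121 / 16) := by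
  have hNr : (0 : ℝ) < N := by exact_mod_cast hN
  have h1 : ∀ i : Fin N, 2 * Real.log (16 * N / (((i : ℕ) + 1 : ℕ) : ℝ)) =
      2 * Real.log (16 * N) - 2 * Real.log (((i : ℕ) : ℝ) + 1) := by
    intro i
    rw [Real.log_div (by positivity) (by positivity)]
    push_cast
    ring
  have hlp : ∑ i : Fin N, Real.log (((i : ℕ) : ℝ) + 1) = Real.log (Nat.factorial N : ℝ) := by
    rw [← factorial_prod, Real.log_prod (fun i _ => by positivity)]
  rw [Finset.sum_congr rfl fun i _ => h1 i, Finset.sum_sub_distrib, Finset.sum_const,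
    Finset.card_univ, Fintype.card_fin, nsmul_eq_mul, ← Finset.mul_sum, hlp]
  have h2 := factorial_ge N
  have h3 : Real.log (((N : ℝ) / Real.exp 1) ^ N) ≤ Real.log (Nat.factorial N : ℝ) :=
    Real.log_le_log (by positivity) h2
  rw [Real.log_pow, Real.log_div hNr.ne' (Real.exp_pos _).ne', Real.log_exp] at h3
  rw [Real.log_mul (by norm_num) hNr.ne']
  have h4 : Real.log 16 = 4 * Real.log 2 := by
    rw [show (16 : ℝ) = 2 ^ 4 by norm_num, Real.log_pow]
    push_cast; ring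
  have h5 := Real.log_two_lt_d9
  rw [h4]
  have h6 : (N : ℝ) * Real.log 2 ≤ N * 0.6931471808 := by gcongr
  nlinarith

lemma prod_Rm_le {N : ℕ} (hN : 0 < N) :
    ∏ i : Fin N, Rm N ((i : ℕ) + 1) ≤ (11 / 4 : ℝ) ^ N := by
  have h0 : ∀ i : Fin N, 0 ≤ 2 * Real.log (16 * N / (((i : ℕ) + 1 : ℕ) : ℝ)) := by
    intro i
    have h1 : (((i : ℕ) + 1 : ℕ) : ℝ) ≤ N := by exact_mod_cast i.2
    have h2 : (0 : ℝ) < (((i : ℕ) + 1 : ℕ) : ℝ) := by positivity
    have : 0 ≤ Real.log (16 * N / (((i : ℕ) + 1 : ℕ) : ℝ)) := by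
      apply Real.log_nonneg
      rw [le_div_iff₀ h2]
      linarith
    positivity
  have hpos : 0 ≤ ∏ i : Fin N, Rm N ((i : ℕ) + 1) :=
    Finset.prod_nonneg fun i _ => Real.sqrt_nonneg _
  apply le_of_sq_le_sq _ (by positivity)
  have h1 : (∏ i : Fin N, Rm N ((i : ℕ) + 1)) ^ 2 =
      ∏ i : Fin N, 2 * Real.log (16 * N / (((i : ℕ) + 1 : ℕ) : ℝ)) := by
    rw [← Finset.prod_pow]
    exact Finset.prod_congr rfl fun i _ => Real.sq_sqrt (h0 i)
  rw [h1]
  have h2 : ∀ i : Fin N, 2 * Real.log (16 * N / (((i : ℕ) + 1 : ℕ) : ℝ)) ≤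
      (121 / 16) * Real.exp (2 * Real.log (16 * N / (((i : ℕ) + 1 : ℕ) : ℝ)) / (121 / 16) - 1) := by
    intro i
    have h3 := Real.add_one_le_exp (2 * Real.log (16 * N / (((i : ℕ) + 1 : ℕ) : ℝ)) / (121 / 16) - 1)
    have h4 : 2 * Real.log (16 * N / (((i : ℕ) + 1 : ℕ) : ℝ)) / (121 / 16) ≤
        Real.exp (2 * Real.log (16 * N / (((i : ℕ) + 1 : ℕ) : ℝ)) / (121 / 16) - 1) := by linarith
    rw [div_le_iff₀ (by norm_num)] at h4
    linarith
  refine (Finset.prod_le_prod (fun i _ => h0 i) (fun i _ => h2 i)).trans ?_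
  rw [Finset.prod_mul_distrib, Finset.prod_const, Finset.card_univ, Fintype.card_fin,
    ← Real.exp_sum, Finset.sum_sub_distrib, ← Finset.sum_div, Finset.sum_const, Finset.card_univ,
    Fintype.card_fin, nsmul_eq_mul, mul_one]
  have h5 : Real.exp ((∑ i : Fin N, 2 * Real.log (16 * N / (((i : ℕ) + 1 : ℕ) : ℝ))) / (121 / 16) - N) ≤ 1 := by
    rw [Real.exp_le_one_iff]
    have := sum_log_le hN
    rw [sub_nonpos, div_le_iff₀ (by norm_num)]
    exact this
  calc (121 / 16 : ℝ) ^ N * _ ≤ (121 / 16 : ℝ) ^ N * 1 := by gcongr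
    _ = ((11 / 4 : ℝ) ^ N) ^ 2 := by rw [mul_one, ← pow_mul, mul_comm N 2, pow_mul]; norm_num

section Banach

variable {𝕜 : Type} [RCLike 𝕜] {X Y : Type} [NormedAddCommGroup X] [NormedSpace 𝕜 X]
  [NormedSpace ℝ X] [IsScalarTower ℝ 𝕜 X] [NormedAddCommGroup Y] [NormedSpace 𝕜 Y]
  [NormedSpace ℝ Y] [IsScalarTower ℝ 𝕜 Y]

theorem banach_prod {d : ℕ} (hd : Enc 𝕜 d) (S : X →L[𝕜] Y) {F : Set X}
    (hF : Convex ℝ F) {n : ℕ} {c : ℝ} (hc : 0 < c) (h : ENNReal.ofReal c < detNonErr 𝕜 S F n) :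
    ENNReal.ofReal ((c * (770 * ((n + 1 : ℕ) : ℝ))⁻¹) ^ (n + 1)) ≤
      ∏ i : Fin (n + 1), ranErr 𝕜 S F (((i : ℕ) + 1) / (2 * d)) := by
  classical
  have hex : ∀ x : Y, ∃ g : Y →L[𝕜] 𝕜, ‖g‖ ≤ 1 ∧ g x = ‖x‖ := fun x => exists_dual_vector'' 𝕜 x
  choose nf hnf1 hnf2 using hex
  obtain ⟨f, g, h1, h2⟩ := greedy S hF hc.le h nf (n + 1) le_rfl
  set N := n + 1 with hN
  have hNr : (1 : ℝ) ≤ N := by rw [hN]; push_cast; linarith [(Nat.cast_nonneg n : (0 : ℝ) ≤ n)]
  let y : Fin N → (Y →L[𝕜] 𝕜) := fun i => nf (S (f i) - S (g i))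
  let f' : Fin N → X := fun i => f i
  let g' : Fin N → X := fun i => g i
  have hκ : 0 < Real.sqrt N := by positivity
  let T : EuclideanSpace ℝ (Fin N) →ₗ[ℝ] EuclideanSpace ℝ (Fin N) := ∑ j : Fin N,
    ((EuclideanSpace.proj (𝕜 := ℝ) j).toLinearMap).smulRight (coord y (S (f' j - g' j)))
  have hTv : ∀ v, T v = ∑ j, v j • coord y (S (f' j - g' j)) := by
    intro v; simp [T]
  let M : Matrix (Fin N) (Fin N) ℝ := fun i j => RCLike.re (y i (S (f' j - g' j)))
  have hM : ∀ i j, M i j = RCLike.re (y i (S (f' j - g' j))) := fun i j => rfl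
  have hdetT : LinearMap.det T = M.det := by
    apply det_eq
    intro j i
    rw [hTv]
    rw [Finset.sum_eq_single j]
    · simp [coord_apply, hM]
    · intro j' _ hj'
      simp [hj']
    · intro hj; exact absurd (Finset.mem_univ j) hj
  have hdiag : ∀ i, M i i = c := by
    intro i
    rw [hM]
    show RCLike.re (nf (S (f i) - S (g i)) (S (f i - g i))) = c
    rw [map_sub, hnf2, (h1 i i.2).2.2]
    simp
  have hlow : M.BlockTriangular OrderDual.toDual := by
    intro i j hij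
    have hij' : i < j := hij
    rw [hM]
    show RCLike.re (nf (S (f i) - S (g i)) (S (f j - g j))) = 0
    rw [map_sub S, h2 i j hij' j.2]
    simp
  have hdet : M.det = c ^ N := by
    rw [Matrix.det_of_isLowerTriangular M hlow]
    simp [hdiag]
  obtain ⟨V, σ, hV, hσ0, hσ, hσdet⟩ := exists_flag T
  have hσprod : ∏ i, σ i = c ^ N := by
    rw [← hσdet, hdetT, hdet, abs_of_pos (by positivity)]
  have hRpos : ∀ i : Fin N, 0 < Rm N ((i : ℕ) + 1) := fun i => Rm_pos (by omega) i.2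
  have key : ∀ i : Fin N, ENNReal.ofReal
      (Real.sqrt (((i : ℕ) + 1 - ((i : ℕ) + 1) / (2 * d) * d : ℕ) : ℝ) * σ i /
        ((120 * N * Real.sqrt N) * Rm N ((i : ℕ) + 1))) ≤
        ranErr 𝕜 S F (((i : ℕ) + 1) / (2 * d)) := by
    intro i
    have h3 : 2 * (((i : ℕ) + 1) / (2 * d) * d) ≤ (i : ℕ) + 1 := by
      calc 2 * (((i : ℕ) + 1) / (2 * d) * d) = ((i : ℕ) + 1) / (2 * d) * (2 * d) := by ring
        _ ≤ _ := Nat.div_mul_le_self _ _
    have h4 := ran_section hd S hF (N := N) (by omega) (f := f') (g := g')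
      (fun j => (h1 j j.2).1) (fun j => (h1 j j.2).2.1) (coord y) hκ
      (coord_norm_le y (fun i => hnf1 _)) (V i) (m := (i : ℕ) + 1) (by omega) (hV i) (hσ0 i)
      (fun v hv => by rw [← hTv]; exact hσ i v hv)
      (k := ((i : ℕ) + 1) / (2 * d)) h3
    refine le_trans (le_of_eq ?_) h4
    congr 2
    ring
  refine le_trans ?_ (Finset.prod_le_prod' fun i _ => key i)
  rw [← ENNReal.ofReal_prod_of_nonneg (fun i _ => by
    have := hσ0 i
    have := hRpos i
    positivity)]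
  apply ENNReal.ofReal_le_ofReal
  rw [Finset.prod_div_distrib, Finset.prod_mul_distrib, hσprod, Finset.prod_mul_distrib,
    Finset.prod_const, Finset.card_univ, Fintype.card_fin]
  have h5 := prod_sqrt_ge (N := N) (d := d)
  have h5' := prod_Rm_le (N := N) (by omega)
  have hRp : 0 < ∏ i : Fin N, Rm N ((i : ℕ) + 1) := Finset.prod_pos fun i _ => hRpos i
  have h6 : (c * (770 * (N : ℝ))⁻¹) ^ N ≤
      (Real.sqrt ((N : ℝ) / (2 * Real.exp 1))) ^ N * c ^ N /
        ((120 * N * Real.sqrt N) ^ N * (11 / 4) ^ N) := by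
    rw [← mul_pow, ← mul_pow, ← div_pow]
    apply pow_le_pow_left₀ (by positivity)
    rw [Real.sqrt_div (by positivity)]
    have h7 : Real.sqrt (2 * Real.exp 1) ≤ 7 / 3 := by
      rw [Real.sqrt_le_left (by norm_num)]
      have := Real.exp_one_lt_d9
      nlinarith
    have h8 : 0 < Real.sqrt (2 * Real.exp 1) := by positivity
    have h9 : Real.sqrt (N : ℝ) / Real.sqrt (2 * Real.exp 1) * c / (120 * N * Real.sqrt N * (11 / 4)) =
        c / (330 * Real.sqrt (2 * Real.exp 1) * N) := by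
      field_simp
      norm_num
    rw [h9, ← div_eq_mul_inv]
    apply div_le_div_of_nonneg_left hc.le (by positivity)
    have : 330 * Real.sqrt (2 * Real.exp 1) ≤ 770 := by linarith
    gcongr
  refine h6.trans ?_
  gcongr

/-- the comparison with the product of the errors -/
theorem banach_compare_root {d : ℕ} (hd : Enc 𝕜 d) (S : X →L[𝕜] Y) {F : Set X}
    (hF : Convex ℝ F) (n : ℕ) :
    detNonErr 𝕜 S F n ≤ ENNReal.ofReal (770 * ((n + 1 : ℕ) : ℝ)) *
      (∏ i : Fin (n + 1), ranErr 𝕜 S F (((i : ℕ) + 1) / (2 * d))) ^ (((n + 1 : ℕ) : ℝ)⁻¹) := by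
  set N : ℝ := ((n + 1 : ℕ) : ℝ) with hN
  have hN1 : 1 ≤ N := by rw [hN]; push_cast; linarith [(Nat.cast_nonneg n : (0 : ℝ) ≤ n)]
  set P := ∏ i : Fin (n + 1), ranErr 𝕜 S F (((i : ℕ) + 1) / (2 * d)) with hP
  have h2 := le_of_forall_ofReal (a := detNonErr 𝕜 S F n) (r := P ^ (N⁻¹))
    (γ := (770 * N)⁻¹) (by positivity) ?_
  · rwa [inv_inv] at h2
  · intro c hc0 hc
    rcases eq_or_lt_of_le hc0 with h0 | hcpos
    · rw [← h0]; simp
    · have h3 := banach_prod hd S hF hcpos hc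
      rw [ENNReal.ofReal_pow (by positivity)] at h3
      have h4 := ENNReal.rpow_le_rpow h3 (z := N⁻¹) (by positivity)
      rwa [hN, ENNReal.pow_rpow_inv_natCast (by omega)] at h4

lemma prod_blocks (f : ℕ → ℝ≥0∞) {q : ℕ} (hq : 0 < q) (n : ℕ) :
    ∏ i ∈ Finset.range (q * n), f (i / q) = (∏ k ∈ Finset.range n, f k) ^ q := by
  induction n with
  | zero => simp
  | succ n ih =>
    rw [Nat.mul_succ, Finset.prod_range_add, ih, Finset.prod_range_succ, mul_pow]
    congr 1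
    rw [Finset.prod_congr rfl (g := fun _ => f n), Finset.prod_const, Finset.card_range]
    intro i hi
    rw [Finset.mem_range] at hi
    rw [Nat.mul_add_div hq, Nat.div_eq_of_lt hi, add_zero]

/-- The comparison for arbitrary targets. -/
theorem banach_compare {d : ℕ} (hd : Enc 𝕜 d) (hd1 : 1 ≤ d) (S : X →L[𝕜] Y) {F : Set X}
    (hF : Convex ℝ F) (n : ℕ) (hn : 1 ≤ n) :
    detNonErr 𝕜 S F (2 * d * n - 1) ≤ ENNReal.ofReal (1540 * d * n) *
      (∏ k ∈ Finset.range n, ranErr 𝕜 S F k) ^ ((n : ℝ)⁻¹) := by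
  have hpos : 0 < 2 * d * n := by positivity
  have hN : 2 * d * n - 1 + 1 = 2 * d * n := by omega
  have hanti : Antitone (ranErr 𝕜 S F) := Rates.ranErr_antitone S F
  have h1 := banach_compare_root hd S hF (2 * d * n - 1)
  refine h1.trans ?_
  have h2 : ∏ i : Fin (2 * d * n - 1 + 1), ranErr 𝕜 S F (((i : ℕ) + 1) / (2 * d)) ≤
      (∏ k ∈ Finset.range n, ranErr 𝕜 S F k) ^ (2 * d) := by
    rw [← prod_blocks _ (by omega : 0 < 2 * d),
      Fin.prod_univ_eq_prod_range (fun i => ranErr 𝕜 S F ((i + 1) / (2 * d))), hN]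
    apply Finset.prod_le_prod'
    intro i _
    apply hanti
    exact Nat.div_le_div_right (by omega)
  have h3 : (∏ i : Fin (2 * d * n - 1 + 1), ranErr 𝕜 S F (((i : ℕ) + 1) / (2 * d))) ^
      (((2 * d * n - 1 + 1 : ℕ) : ℝ)⁻¹) ≤ (∏ k ∈ Finset.range n, ranErr 𝕜 S F k) ^ ((n : ℝ)⁻¹) := by
    refine (ENNReal.rpow_le_rpow h2 (by positivity)).trans (le_of_eq ?_)
    rw [← ENNReal.rpow_natCast, ← ENNReal.rpow_mul, hN]
    congr 1
    have hd0 : (d : ℝ) ≠ 0 := by
      have : 0 < d := by omega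
      exact_mod_cast this.ne'
    have hn0 : (n : ℝ) ≠ 0 := by
      have : 0 < n := by omega
      exact_mod_cast this.ne'
    push_cast
    field_simp
  refine mul_le_mul' ?_ h3
  apply ENNReal.ofReal_le_ofReal
  rw [hN]
  push_cast
  linarith

end Banach

end Pool.Agent.H46.RG
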