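import Mathlib
import Pool.Agent.H46.RG.Hil

set_option autoImplicit false
set_option linter.unusedSectionVars false

namespace Pool.Agent.H46.RG

open MeasureTheory Set Metric Module
open Pool.Agent.Helper579.RanLower Pool.Agent.Helper579.Greedy Pool.Agent.Helper579.IBC
open Pool.Agent.Helper579
open scoped ENNReal Pointwise

section Hilbert

variable {𝕜 : Type} [RCLike 𝕜] {X : Type} [NormedAddCommGroup X] [NormedSpace 𝕜 X]
  [NormedSpace ℝ X] [IsScalarTower ℝ 𝕜 X]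
variable {H : Type} [NormedAddCommGroup H] [InnerProductSpace 𝕜 H] [NormedSpace ℝ H]
  [IsScalarTower ℝ 𝕜 H]

theorem hilbert_ineq15 {d : ℕ} (hd : Enc 𝕜 d) (S : X →L[𝕜] H) {F : Set X} (hF : Convex ℝ F)
    {n : ℕ} {c : ℝ} (hc : 0 < c) (h : ENNReal.ofReal c < detNonErr 𝕜 S F n)
    {k : ℕ} (hk : 2 * (k * d) ≤ n + 1) :
    ENNReal.ofReal (Real.sqrt ((n + 1 - k * d : ℕ) : ℝ) * c / (120 * ((n + 1 : ℕ) : ℝ)))
      ≤ ranErr 𝕜 S F k := by
  classical
  obtain ⟨f, g, h1, h2⟩ := greedy S hF hc.le h (fun y => innerSL 𝕜 y) (n + 1) le_rfl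
  set N := n + 1 with hN
  let f' : Fin N → X := fun i => f i
  let g' : Fin N → X := fun i => g i
  have hnf : ∀ y : H, ‖(innerSL 𝕜 y : H →L[𝕜] 𝕜)‖ = ‖y‖ := fun y => innerSL_apply_norm (𝕜 := 𝕜) y
  let e : Fin N → H := fun i => ((c : 𝕜)⁻¹) • (S (f i) - S (g i))
  have hcne : (c : 𝕜) ≠ 0 := by exact_mod_cast hc.ne'
  have horth : ∀ i j : Fin N, i ≠ j → inner 𝕜 (S (f i) - S (g i)) (S (f j) - S (g j)) = 0 := by
    intro i j hij
    rcases lt_or_gt_of_ne hij with hlt | hgt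
    · exact h2 i j hlt j.2
    · rw [← inner_conj_symm, map_eq_zero_iff _ (RingHom.injective _)]
      exact h2 j i hgt i.2
  have he : Orthonormal 𝕜 e := by
    constructor
    · intro i
      show ‖((c : 𝕜)⁻¹) • (S (f i) - S (g i))‖ = 1
      rw [norm_smul, norm_inv, RCLike.norm_ofReal, abs_of_pos hc, (h1 i i.2).2.2]
      exact inv_mul_cancel₀ hc.ne'
    · intro i j hij
      show inner 𝕜 (((c : 𝕜)⁻¹) • (S (f i) - S (g i))) (((c : 𝕜)⁻¹) • (S (f j) - S (g j))) = 0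
      rw [inner_smul_left, inner_smul_right, horth i j hij]
      simp
  let y : Fin N → (H →L[𝕜] 𝕜) := fun i => innerSL 𝕜 (e i)
  have hbessel : ∀ x : H, ‖coord y x‖ ≤ 1 * ‖x‖ := by
    intro x
    rw [one_mul, EuclideanSpace.norm_eq]
    have h3 : ∑ i, ‖coord y x i‖ ^ 2 ≤ ‖x‖ ^ 2 := by
      refine le_trans ?_ (he.sum_inner_products_le x (s := Finset.univ))
      apply Finset.sum_le_sum
      intro i _
      apply pow_le_pow_left₀ (norm_nonneg _)
      rw [coord_apply, Real.norm_eq_abs]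
      exact RCLike.abs_re_le_norm _
    calc Real.sqrt (∑ i, ‖coord y x i‖ ^ 2) ≤ Real.sqrt (‖x‖ ^ 2) := Real.sqrt_le_sqrt h3
      _ = ‖x‖ := Real.sqrt_sq (norm_nonneg _)
  have hval : ∀ i j : Fin N, coord y (S (f' j - g' j)) i = if i = j then c else 0 := by
    intro i j
    rw [coord_apply]
    show RCLike.re (inner 𝕜 (((c : 𝕜)⁻¹) • (S (f i) - S (g i))) (S (f j - g j))) = _
    rw [map_sub S, inner_smul_left]
    by_cases hij : i = j
    · subst hij
      rw [if_pos rfl, inner_self_eq_norm_sq_to_K, (h1 i i.2).2.2]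
      have : (starRingEnd 𝕜) ((c : 𝕜)⁻¹) * (c : 𝕜) ^ 2 = c := by
        rw [map_inv₀, RCLike.conj_ofReal]
        field_simp
      rw [this, RCLike.ofReal_re]
    · rw [if_neg hij, horth i j hij]
      simp
  have hsum : ∀ v : EuclideanSpace ℝ (Fin N), ∑ j, v j • coord y (S (f' j - g' j)) = c • v := by
    intro v
    ext i
    simp only [PiLp.smul_apply, smul_eq_mul, WithLp.ofLp_sum, WithLp.ofLp_smul, Finset.sum_apply,
      Pi.smul_apply, hval]
    simp [mul_comm]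
  apply le_sInf
  intro e' he'
  have key := ran_lower15 hd S hF (N := N) (by omega) (f := f') (g := g')
    (fun j => (h1 j j.2).1) (fun j => (h1 j j.2).2.1) (coord y) (κ := 1) one_pos
    hbessel (σ := c) hc.le
    (fun v => by rw [hsum, norm_smul, Real.norm_eq_abs, abs_of_pos hc])
    (k := k) hk he'
  rw [mul_one] at key
  exact key

/-- The comparison for Hilbert spaces as targets, without logarithm. -/
theorem hilbert_compare {d : ℕ} (hd : Enc 𝕜 d) (S : X →L[𝕜] H) {F : Set X}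
    (hF : Convex ℝ F) (n : ℕ) :
    detNonErr 𝕜 S F n ≤
      ENNReal.ofReal (170 * Real.sqrt (n + 1)) * ranErr 𝕜 S F ((n + 1) / (2 * d)) := by
  set k := (n + 1) / (2 * d) with hk
  set N : ℝ := ((n + 1 : ℕ) : ℝ) with hN
  have hNpos : 0 < N := by rw [hN]; positivity
  have hkd : 2 * (k * d) ≤ n + 1 := by
    calc 2 * (k * d) = k * (2 * d) := by ring
      _ ≤ n + 1 := Nat.div_mul_le_self _ _
  have hm : N / 2 ≤ ((n + 1 - k * d : ℕ) : ℝ) := by
    rw [Nat.cast_sub (by omega)]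
    have : (2 : ℝ) * ((k * d : ℕ) : ℝ) ≤ N := by rw [hN]; exact_mod_cast hkd
    linarith
  have hm0 : 0 < ((n + 1 - k * d : ℕ) : ℝ) := lt_of_lt_of_le (by positivity) hm
  set γ : ℝ := Real.sqrt ((n + 1 - k * d : ℕ) : ℝ) / (120 * N) with hγ
  have hsq : 0 < Real.sqrt ((n + 1 - k * d : ℕ) : ℝ) := Real.sqrt_pos.mpr hm0
  have hγ0 : 0 < γ := by positivity
  have h1 : detNonErr 𝕜 S F n ≤ ENNReal.ofReal γ⁻¹ * ranErr 𝕜 S F k := by
    apply le_of_forall_ofReal hγ0
    intro c hc0 hc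
    rcases eq_or_lt_of_le hc0 with h0 | hcpos
    · rw [← h0]; simp
    · refine le_trans (le_of_eq ?_) (hilbert_ineq15 hd S hF hcpos hc hkd)
      congr 1
      rw [hγ]
      ring
  refine h1.trans (mul_le_mul' ?_ le_rfl)
  apply ENNReal.ofReal_le_ofReal
  have h3 : γ⁻¹ = 120 * N / Real.sqrt ((n + 1 - k * d : ℕ) : ℝ) := by
    rw [hγ]; field_simp
  have hN' : Real.sqrt (n + 1) = Real.sqrt N := by rw [hN]; push_cast; rfl
  rw [h3, hN', div_le_iff₀ hsq]
  have h4 : Real.sqrt (N / 2) ≤ Real.sqrt ((n + 1 - k * d : ℕ) : ℝ) := Real.sqrt_le_sqrt hm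
  have h5 : 120 * N ≤ 170 * Real.sqrt N * Real.sqrt (N / 2) := by
    have h6 : Real.sqrt N * Real.sqrt (N / 2) = N * Real.sqrt (1 / 2) := by
      rw [← Real.sqrt_mul hNpos.le]
      have : N * (N / 2) = N ^ 2 * (1 / 2) := by ring
      rw [this, Real.sqrt_mul (by positivity), Real.sqrt_sq hNpos.le]
    have h7 : (12 / 17 : ℝ) ≤ Real.sqrt (1 / 2) := by
      apply Real.le_sqrt_of_sq_le
      norm_num
    calc 120 * N = 170 * (N * (12 / 17)) := by ring
      _ ≤ 170 * (N * Real.sqrt (1 / 2)) := by gcongr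
      _ = 170 * Real.sqrt N * Real.sqrt (N / 2) := by rw [← h6]; ring
  calc 120 * N ≤ 170 * Real.sqrt N * Real.sqrt (N / 2) := h5
    _ ≤ _ := by gcongr

end Hilbert

end Pool.Agent.H46.RG
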